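import Mathlib

-- part MP_5a7e96_nt.H63.Four
section

/-! Fourier analysis of the set of integers whose lowest base-4 digits are non-zero. -/

namespace Pool.Agent.MP_5a7e96_nt.H63

open Finset Real

/-- The lowest `j` base-4 digits of `y` are non-zero. -/
def good : ℕ → ℕ → Prop
  | 0, _ => True
  | j + 1, y => y % 4 ≠ 0 ∧ good j (y / 4)

instance : ∀ j y, Decidable (good j y)
  | 0, _ => isTrue trivial
  | j + 1, y => by
    have := instDecidableGood j (y / 4)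
    unfold good; infer_instance

theorem good_mod : ∀ (j i y : ℕ), i ≤ j → good j y → good i (y % 4 ^ i)
  | _, 0, _, _, _ => trivial
  | 0, _ + 1, _, h, _ => by omega
  | j + 1, i + 1, y, h, hy => by
    refine ⟨?_, ?_⟩
    · rw [Nat.mod_mod_of_dvd _ (Dvd.intro_left (4 ^ i) (pow_succ 4 i).symm)]; exact hy.1
    · rw [pow_succ', Nat.mod_mul_right_div_self]
      exact good_mod j i _ (by omega) hy.2

theorem good_div : ∀ (i j y : ℕ), good (i + j) y → good j (y / 4 ^ i)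
  | 0, j, y, h => by simpa using h
  | i + 1, j, y, h => by
    rw [show i + 1 + j = (i + j) + 1 by ring] at h
    rw [pow_succ', ← Nat.div_div_eq_div_mul]
    exact good_div i j _ h.2

/-- The good residues modulo `4 ^ j`. -/
def G (j : ℕ) : Finset ℕ := (range (4 ^ j)).filter (good j)

theorem sum_G_succ {β : Type*} [AddCommMonoid β] (j : ℕ) (f : ℕ → β) :
    ∑ y ∈ G (j + 1), f y = ∑ y ∈ G j, (f (4 * y + 1) + f (4 * y + 2) + f (4 * y + 3)) := by
  have : ∑ y ∈ G j, (f (4 * y + 1) + f (4 * y + 2) + f (4 * y + 3)) =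
      ∑ p ∈ G j ×ˢ ({1, 2, 3} : Finset ℕ), f (4 * p.1 + p.2) := by
    rw [sum_product]
    simp [add_assoc]
  rw [this]
  symm
  refine sum_bij' (fun p _ => 4 * p.1 + p.2) (fun y _ => (y / 4, y % 4)) ?_ ?_ ?_ ?_ ?_
  · rintro ⟨y, d⟩ h
    simp only [G, mem_product, mem_filter, mem_range, mem_insert, mem_singleton] at h ⊢
    obtain ⟨⟨h1, h2⟩, h3⟩ := h
    refine ⟨by rw [pow_succ]; omega, by omega, ?_⟩
    rwa [show (4 * y + d) / 4 = y by omega]
  · intro y h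
    simp only [G, mem_product, mem_filter, mem_range, mem_insert, mem_singleton] at h ⊢
    obtain ⟨h1, h2, h3⟩ := h
    rw [pow_succ] at h1
    exact ⟨⟨by omega, h3⟩, by omega⟩
  · rintro ⟨y, d⟩ h
    simp only [mem_product, mem_insert, mem_singleton] at h
    ext <;> simp <;> omega
  · intro y _
    simp only
    omega
  · intros; rfl

theorem card_G (j : ℕ) : (G j).card = 3 ^ j := by
  induction j with
  | zero => simp [G, good]
  | succ j ih =>
    rw [card_eq_sum_ones, sum_G_succ]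
    simp [ih, pow_succ]

/-- The additive character `x ↦ exp (2 π i x)`. -/
noncomputable def ee (x : ℝ) : ℂ := Complex.exp (↑(2 * π * x) * Complex.I)

theorem ee_add (x y : ℝ) : ee (x + y) = ee x * ee y := by
  rw [ee, ee, ee, ← Complex.exp_add]; congr 1; push_cast; ring

theorem norm_ee (x : ℝ) : ‖ee x‖ = 1 := Complex.norm_exp_ofReal_mul_I _

theorem ee_int (n : ℤ) : ee n = 1 := by
  rw [ee, ← Complex.exp_int_mul_two_pi_mul_I n]; congr 1; push_cast; ring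

theorem ee_nat_mul (n : ℕ) (x : ℝ) : ee (n * x) = ee x ^ n := by
  rw [ee, ee, ← Complex.exp_nat_mul]; congr 1; push_cast; ring

theorem norm_three (x : ℝ) : ‖ee x + ee (2 * x) + ee (3 * x)‖ = |1 + 2 * cos (2 * π * x)| := by
  have h : ee x + ee (2 * x) + ee (3 * x) = ee (2 * x) * ↑(1 + 2 * cos (2 * π * x)) := by
    have h1 : ee x = ee (2 * x) * ee (-x) := by rw [← ee_add]; congr 1; ring
    have h3 : ee (3 * x) = ee (2 * x) * ee x := by rw [← ee_add]; congr 1; ring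
    have hc : ee (-x) + ee x = ↑(2 * cos (2 * π * x)) := by
      rw [ee, ee]; push_cast; rw [Complex.two_cos]; ring_nf
    rw [h3]; nth_rewrite 1 [h1]
    push_cast at hc ⊢
    linear_combination ee (2 * x) * hc
  rw [h, norm_mul, norm_ee, one_mul, Complex.norm_real, Real.norm_eq_abs]

theorem four_sum (c s : ℝ) (h : c ^ 2 + s ^ 2 = 1) :
    |1 + 2 * c| + |1 - 2 * s| + |1 - 2 * c| + |1 + 2 * s| ≤ 6 := by
  have hc : |c| ≤ 1 := by rw [← sq_le_one_iff_abs_le_one]; nlinarith [sq_nonneg s]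
  have hs : |s| ≤ 1 := by rw [← sq_le_one_iff_abs_le_one]; nlinarith [sq_nonneg c]
  have h2 : |c| + |s| ≤ 3 / 2 := by
    nlinarith [sq_abs c, sq_abs s, sq_nonneg (|c| - |s|), abs_nonneg c, abs_nonneg s,
      sq_nonneg (|c| + |s| - 3 / 2)]
  cases abs_cases c <;> cases abs_cases s <;> cases abs_cases (1 + 2 * c) <;>
    cases abs_cases (1 - 2 * c) <;> cases abs_cases (1 + 2 * s) <;>
    cases abs_cases (1 - 2 * s) <;> linarith

/-- The Fourier transform of the good residues. -/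
noncomputable def F (j : ℕ) (x : ℝ) : ℂ := ∑ y ∈ G j, ee (y * x)

theorem F_succ (j : ℕ) (x : ℝ) :
    ‖F (j + 1) x‖ = |1 + 2 * cos (2 * π * x)| * ‖F j (4 * x)‖ := by
  rw [← norm_three, ← norm_mul, F, F, sum_G_succ, mul_sum]
  congr 1
  refine sum_congr rfl fun y _ => ?_
  rw [add_mul, add_mul, ← ee_add, ← ee_add, ← ee_add]
  congr 2 <;> push_cast <;> ring_nf

theorem F_add_nat (j : ℕ) (x : ℝ) (n : ℕ) : F j (x + n) = F j x := by
  refine sum_congr rfl fun y _ => ?_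
  rw [mul_add, ee_add, show (y : ℝ) * n = ((y * n : ℕ) : ℤ) by push_cast; ring, ee_int, mul_one]

theorem sum_norm_F (j : ℕ) : ∑ a ∈ range (4 ^ j), ‖F j (a / 4 ^ j)‖ ≤ 6 ^ j := by
  induction j with
  | zero => simp [F, G, good, norm_ee]
  | succ j ih =>
    rw [pow_succ', show 4 * 4 ^ j = 4 ^ j + 4 ^ j + 4 ^ j + 4 ^ j by ring, sum_range_add,
      sum_range_add, sum_range_add, ← sum_add_distrib, ← sum_add_distrib, ← sum_add_distrib,
      pow_succ' (6 : ℝ)]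
    refine le_trans (sum_le_sum fun a _ => ?_)
      ((mul_sum _ _ (6 : ℝ)).symm.le.trans (mul_le_mul_of_nonneg_left ih (by norm_num)))
    have hp : (0 : ℝ) < 4 ^ j := by positivity
    have key : ∀ i : ℕ, ‖F (j + 1) ((i * 4 ^ j + a : ℕ) / 4 ^ (j + 1))‖ =
        |1 + 2 * cos (2 * π * (a / 4 ^ (j + 1)) + i * (π / 2))| * ‖F j (a / 4 ^ j)‖ := by
      intro i
      rw [F_succ, ← F_add_nat j (a / 4 ^ j) i]
      congr 3
      · congr 2; push_cast; field_simp; ring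
      · push_cast; field_simp; ring
    have k0 := key 0
    have k1 := key 1
    have k2 := key 2
    have k3 := key 3
    rw [show 3 * 4 ^ j = 4 ^ j + 4 ^ j + 4 ^ j by ring] at k3
    rw [two_mul] at k2
    rw [one_mul] at k1
    rw [zero_mul, zero_add] at k0
    rw [k0, k1, k2, k3, ← add_mul, ← add_mul, ← add_mul]
    refine mul_le_mul_of_nonneg_right ?_ (norm_nonneg _)
    have h4 := four_sum _ _ (cos_sq_add_sin_sq (2 * π * (a / 4 ^ (j + 1))))
    generalize 2 * π * (a / 4 ^ (j + 1) : ℝ) = φ at h4 ⊢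
    have e2 : φ + (2 : ℕ) * (π / 2) = φ + π := by push_cast; ring
    have e3 : φ + (3 : ℕ) * (π / 2) = φ + π + π / 2 := by push_cast; ring
    rw [e2, e3, cos_add_pi_div_two, sin_add_pi, cos_add_pi]
    simp only [Nat.cast_zero, zero_mul, add_zero, Nat.cast_one, one_mul, cos_add_pi_div_two]
    simp only [mul_neg, neg_neg, ← sub_eq_add_neg]
    exact h4

theorem four_le_norm (x : ℝ) : 4 * |x - round x| ≤ ‖ee x - 1‖ := by
  have h1 : ee x = ee (x - round x) := by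
    rw [sub_eq_add_neg, ee_add, ← Int.cast_neg, ee_int, mul_one]
  have h2 := abs_sub_round x
  generalize x - round x = y at h1 h2
  rw [h1, ee, mul_comm _ Complex.I, Complex.norm_exp_I_mul_ofReal_sub_one, Real.norm_eq_abs,
    abs_mul, show 2 * π * y / 2 = π * y by ring]
  have h3 : |π * y| ≤ π / 2 := by
    rw [abs_mul, abs_of_pos pi_pos]; nlinarith [pi_pos]
  have h4 := Real.mul_abs_le_abs_sin h3
  rw [abs_mul, abs_of_pos pi_pos, ← mul_assoc, div_mul_cancel₀ _ pi_pos.ne'] at h4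
  rw [abs_two]; linarith

/-- Geometric sums. -/
noncomputable def D (M : ℕ) (x : ℝ) : ℂ := ∑ m ∈ range M, ee (m * x)

theorem norm_D_le (M : ℕ) (x : ℝ) : ‖D M x‖ ≤ M := by
  refine (norm_sum_le _ _).trans ?_
  simp [norm_ee]

theorem norm_D_mul (M : ℕ) (x : ℝ) : ‖D M x‖ * |x - round x| ≤ 1 / 2 := by
  have h : D M x * (ee x - 1) = ee x ^ M - 1 := by
    rw [D, ← geom_sum_mul]; simp only [ee_nat_mul]
  have h2 : ‖D M x‖ * ‖ee x - 1‖ ≤ 2 := by
    rw [← norm_mul, h]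
    refine (norm_sub_le _ _).trans ?_
    rw [norm_pow, norm_ee]; norm_num
  nlinarith [four_le_norm x, norm_nonneg (D M x)]

theorem D_orth (Q : ℕ) (hQ : 0 < Q) (n : ℤ) (h : (Q : ℤ) ∣ n) : D Q (n / Q) = Q := by
  obtain ⟨k, rfl⟩ := h
  have : ((Q * k : ℤ) : ℝ) / Q = k := by push_cast; field_simp
  rw [this]; simp [D, ee_nat_mul, ee_int]

theorem D_orth' (Q : ℕ) (hQ : 0 < Q) (n : ℤ) (h : ¬ (Q : ℤ) ∣ n) : D Q (n / Q) = 0 := by
  have hq : (0 : ℝ) < Q := by positivity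
  have h1 : D Q (n / Q) * (ee (n / Q) - 1) = 0 := by
    rw [D]; simp only [ee_nat_mul]
    rw [geom_sum_mul, ← ee_nat_mul, mul_div_cancel₀ _ hq.ne', ee_int, sub_self]
  refine (mul_eq_zero.1 h1).resolve_right fun h2 => h ?_
  have h3 := four_le_norm (n / Q)
  rw [h2, norm_zero] at h3
  have h4 : (n : ℝ) / Q - round ((n : ℝ) / Q) = 0 := by
    rw [← abs_nonpos_iff]; linarith
  refine ⟨round ((n : ℝ) / Q), ?_⟩
  have : (n : ℝ) = Q * round ((n : ℝ) / Q) := by field_simp at h4; linarith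
  exact_mod_cast this

/-- Counting good residues along an arithmetic progression by Fourier inversion. -/
theorem count_ap (t c u M : ℕ) :
    (((range M).filter fun m => good t ((c + u * m) % 4 ^ t)).card : ℝ) * 4 ^ t ≤
      3 ^ t * M + ∑ a ∈ (range (4 ^ t)).erase 0, ‖F t (a / 4 ^ t)‖ * ‖D M (a * u / 4 ^ t)‖ := by
  have hQ : 0 < 4 ^ t := by positivity
  have h1 : ((((range M).filter fun m => good t ((c + u * m) % 4 ^ t)).card : ℝ) * 4 ^ t : ℂ) =
      ∑ a ∈ range (4 ^ t), ee (-(a * c / 4 ^ t)) * F t (a / 4 ^ t) * D M (-(a * u / 4 ^ t)) := by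
    have h2 : ∀ m : ℕ, ∑ y ∈ G t, D (4 ^ t) (((y : ℤ) - (c + u * m : ℕ) : ℤ) / (4 ^ t : ℕ)) =
        if good t ((c + u * m) % 4 ^ t) then (4 ^ t : ℂ) else 0 := by
      intro m
      have h3 : ∀ y ∈ G t, D (4 ^ t) (((y : ℤ) - (c + u * m : ℕ) : ℤ) / (4 ^ t : ℕ)) =
          if (c + u * m) % 4 ^ t = y then (4 ^ t : ℂ) else 0 := by
        intro y hy
        have hy' : y % 4 ^ t = y := Nat.mod_eq_of_lt (mem_range.1 (mem_filter.1 hy).1)
        split_ifs with h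
        · rw [D_orth _ hQ _ ((Nat.modEq_iff_dvd).1 (h.trans hy'.symm))]; simp
        · exact D_orth' _ hQ _ fun h' => h (Eq.trans ((Nat.modEq_iff_dvd).2 h') hy')
      rw [sum_congr rfl h3, sum_ite_eq]
      simp [G, Nat.mod_lt _ hQ]
    have h4 : ∑ m ∈ range M, (if good t ((c + u * m) % 4 ^ t) then (4 ^ t : ℂ) else 0) =
        (((range M).filter fun m => good t ((c + u * m) % 4 ^ t)).card : ℝ) * 4 ^ t := by
      rw [← sum_filter]; simp
    rw [← h4, ← sum_congr rfl fun m _ => h2 m]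
    simp only [D, F, mul_sum, sum_mul]
    symm
    rw [sum_comm]
    refine sum_congr rfl fun m _ => ?_
    rw [sum_comm]
    refine sum_congr rfl fun y _ => sum_congr rfl fun a _ => ?_
    rw [← ee_add, ← ee_add]
    congr 1; push_cast; ring
  have h5 : ∀ a : ℕ, ‖ee (-(a * c / 4 ^ t)) * F t (a / 4 ^ t) * D M (-(a * u / 4 ^ t))‖ =
      ‖F t (a / 4 ^ t)‖ * ‖D M (a * u / 4 ^ t)‖ := by
    intro a
    rw [norm_mul, norm_mul, norm_ee, one_mul, ← Complex.norm_conj (D M (a * u / 4 ^ t)), D, D,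
      map_sum]
    congr 2
    refine sum_congr rfl fun m _ => ?_
    rw [ee, ee, ← Complex.exp_conj, map_mul, Complex.conj_ofReal, Complex.conj_I]
    congr 1
    push_cast; ring
  have h6 := congrArg norm h1
  rw [norm_mul, Complex.norm_real, Real.norm_natCast, norm_pow, Complex.norm_ofNat] at h6
  rw [h6]
  refine (norm_sum_le _ _).trans ?_
  simp only [h5]
  rw [← add_sum_erase _ _ (mem_range.2 hQ)]
  simp [F, D, ee, card_G]

end Pool.Agent.MP_5a7e96_nt.H63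

end

-- part MP_5a7e96_nt.H63.Near
section

/-! Good residues `ε x` with `w x / 4 ^ t` close to an integer are rare. -/

namespace Pool.Agent.MP_5a7e96_nt.H63

open Finset Real

/-- The odd `x` with `2 ^ η x` a good residue modulo `4 ^ s`. -/
def H (η s : ℕ) : Finset ℕ :=
  (range (4 ^ s)).filter fun x => 2 ^ η * x ∈ G s ∧ Odd x

theorem card_H (η s : ℕ) : (H η s).card ≤ 3 ^ s := by
  rw [← card_G]
  refine card_le_card_of_injOn (fun x => 2 ^ η * x) (fun x hx => (mem_filter.1 hx).2.1) ?_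
  intro x _ y _ h
  exact Nat.eq_of_mul_eq_mul_left (by positivity) h

open Classical in
theorem card_near (η s q i : ℕ) (w : ℤ) (hw : Odd w) (hq : 1 ≤ q) (hs : q + η ≤ 2 * s) :
    ((H η s).filter fun x : ℕ => ∃ b : ℤ, |b| * 4 ^ i < 2 ^ q ∧ (2 : ℤ) ^ q ∣ w * x - b).card * 3 ^ i
      ≤ 3 ^ (s + 1) := by
  rcases Nat.eq_zero_or_pos i with rfl | hi
  · refine le_trans ?_ ((card_H η s).trans (Nat.pow_le_pow_right (by norm_num) (Nat.le_succ s)))
    rw [pow_zero 3, mul_one]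
    exact card_filter_le _ _
  have h4 : (4 : ℤ) ^ i = 2 ^ (2 * i) := by rw [pow_mul]; norm_num
  by_cases hiq : q ≤ 2 * i
  · rw [filter_eq_empty_iff.2, card_empty, zero_mul]
    · exact Nat.zero_le _
    rintro x hx ⟨b, h1, h2⟩
    have hb : b = 0 := by
      by_contra hb
      have h3 : 1 ≤ |b| := Int.one_le_abs hb
      have h5 : (2 : ℤ) ^ q ≤ 2 ^ (2 * i) := pow_le_pow_right₀ (by norm_num) hiq
      have h6 : (0 : ℤ) < 2 ^ (2 * i) := by positivity
      rw [h4] at h1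
      nlinarith
    rw [hb, sub_zero] at h2
    have h3 : Odd (w * x) := hw.mul ((Int.odd_coe_nat x).2 (mem_filter.1 hx).2.2)
    exact (Int.not_even_iff_odd.2 h3)
      (even_iff_two_dvd.2 ((dvd_pow_self 2 (by omega)).trans h2))
  obtain ⟨j, hj⟩ : ∃ j, q + 1 = j + 2 * i := ⟨q + 1 - 2 * i, by omega⟩
  obtain ⟨h, hh⟩ : ∃ h, h = (q + η) / 2 := ⟨_, rfl⟩
  obtain ⟨l, hl⟩ : ∃ l, h + 1 = l + i := ⟨h + 1 - i, by omega⟩
  obtain ⟨r, hr⟩ : ∃ r, s = h + r := ⟨s - h, by omega⟩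
  have key : ((H η s).filter fun x : ℕ => ∃ b : ℤ, |b| * 4 ^ i < 2 ^ q ∧
      (2 : ℤ) ^ q ∣ w * x - b).card ≤ (G l ×ˢ G r).card := by
    refine card_le_card_of_injOn (fun x => (2 ^ η * x % 4 ^ l, 2 ^ η * x / 4 ^ h)) ?_ ?_
    · intro x hx
      have h1 := mem_filter.1 (mem_filter.1 (mem_filter.1 hx).1).2.1
      refine mem_coe.2 (mem_product.2 ⟨mem_filter.2 ⟨mem_range.2 (Nat.mod_lt _ (by positivity)),
        good_mod s l _ (by omega) h1.2⟩, mem_filter.2 ⟨mem_range.2 ?_, good_div h r _ (hr ▸ h1.2)⟩⟩)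
      rw [Nat.div_lt_iff_lt_mul (by positivity), ← pow_add, add_comm, ← hr]
      exact mem_range.1 h1.1
    · intro x hx x' hx' he
      obtain ⟨b, b1, b2⟩ := (mem_filter.1 hx).2
      obtain ⟨b', b1', b2'⟩ := (mem_filter.1 hx').2
      obtain ⟨e1, e2⟩ := Prod.ext_iff.1 he
      simp only at e1 e2
      have d1 : (2 : ℤ) ^ j ∣ x' - x := by
        have h1 := (Nat.modEq_iff_dvd).1 e1
        push_cast at h1
        have h2 : (2 : ℤ) ^ η * 2 ^ j ∣ 4 ^ l := by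
          rw [← pow_add, show (4 : ℤ) = 2 ^ 2 by norm_num, ← pow_mul]
          exact pow_dvd_pow _ (by omega)
        rw [← mul_sub] at h1
        exact (mul_dvd_mul_iff_left (by positivity)).1 (h2.trans h1)
      have d2 : (2 : ℤ) ^ q ∣ w * (x' - x) - (b' - b) := by
        have := b2'.sub b2
        rwa [show w * x' - b' - (w * x - b) = w * (x' - x) - (b' - b) by ring] at this
      have d3 : (2 : ℤ) ^ j ∣ b' - b := by
        have := (d1.mul_left w).sub ((pow_dvd_pow 2 (show j ≤ q by omega)).trans d2)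
        rwa [sub_sub_cancel] at this
      have d4 : b' - b = 0 := by
        refine Int.eq_zero_of_abs_lt_dvd d3 ?_
        have h1 : (2 : ℤ) ^ j * 4 ^ i = 2 * 2 ^ q := by rw [h4, ← pow_add, ← hj, pow_succ']
        have h2 := abs_sub b' b
        have h6 : (0 : ℤ) < 4 ^ i := by positivity
        by_contra h3
        nlinarith
      rw [d4, sub_zero] at d2
      have d5 : (2 : ℤ) ^ q ∣ x' - x :=
        (IsCoprime.pow_left (Int.isCoprime_two_left.2 hw)).dvd_of_dvd_mul_left d2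
      have d6 : 2 ^ η * x % 4 ^ h = 2 ^ η * x' % 4 ^ h := by
        refine (Nat.modEq_iff_dvd).2 ?_
        push_cast
        rw [← mul_sub]
        refine dvd_trans ?_ (mul_dvd_mul_left _ d5)
        rw [← pow_add, show (4 : ℤ) = 2 ^ 2 by norm_num, ← pow_mul]
        exact pow_dvd_pow _ (by omega)
      have d7 : 2 ^ η * x = 2 ^ η * x' := by
        rw [← Nat.div_add_mod (2 ^ η * x) (4 ^ h), ← Nat.div_add_mod (2 ^ η * x') (4 ^ h), e2, d6]
      exact Nat.eq_of_mul_eq_mul_left (by positivity) d7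
  refine (Nat.mul_le_mul_right _ key).trans ?_
  rw [card_product, card_G, card_G, ← pow_add, ← pow_add]
  exact le_of_eq (congrArg _ (by omega))

theorem norm_D_le_sum (μ : ℕ) (x : ℝ) : ‖D (4 ^ μ) x‖ ≤
    ∑ i ∈ range (μ + 1), if |x - round x| * 4 ^ i < 1 then (4 : ℝ) ^ (i + 1) else 0 := by
  have h0 : ∀ i : ℕ, (0 : ℝ) ≤ if |x - round x| * 4 ^ i < 1 then (4 : ℝ) ^ (i + 1) else 0 :=
    fun i => by split_ifs <;> positivity
  have hP : |x - round x| * 4 ^ 0 < 1 := by linarith [abs_sub_round x]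
  have h1 := Nat.findGreatest_spec (P := fun i => |x - round x| * 4 ^ i < 1) (Nat.zero_le μ) hP
  have h2 := Nat.findGreatest_le (P := fun i => |x - round x| * 4 ^ i < 1) μ
  have h3 := fun k => Nat.findGreatest_is_greatest (P := fun i => |x - round x| * 4 ^ i < 1)
    (n := μ) (k := k)
  generalize Nat.findGreatest (fun i => |x - round x| * 4 ^ i < 1) μ = i at h1 h2 h3
  refine le_trans ?_ (single_le_sum (fun i _ => h0 i) (mem_range.2 (Nat.lt_succ_of_le h2)))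
  rw [if_pos h1]
  rcases h2.eq_or_lt with rfl | h4
  · refine (norm_D_le _ _).trans ?_
    push_cast
    exact pow_le_pow_right₀ (by norm_num) (Nat.le_succ _)
  · have h5 := not_lt.1 (h3 _ (Nat.lt_succ_self i) h4)
    have h6 := norm_D_mul (4 ^ μ) x
    have h7 : (0 : ℝ) < 4 ^ (i + 1) := by positivity
    rw [Nat.succ_eq_add_one] at h5
    nlinarith [mul_le_mul_of_nonneg_left h5 (norm_nonneg (D (4 ^ μ) x))]

theorem sum_norm_D (η s t μ a lam : ℕ) (hl : Odd lam) (ha : a ∈ (range (4 ^ t)).erase 0)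
    (hs : 2 * t + η ≤ 2 * s) :
    ∑ x ∈ H η s, ‖D (4 ^ μ) (a * (lam * x : ℕ) / 4 ^ t)‖ ≤ 48 * 3 ^ s * (4 / 3) ^ μ := by
  obtain ⟨h0, h1⟩ := mem_erase.1 ha
  obtain ⟨v, a', ha', rfl⟩ := Nat.exists_eq_two_pow_mul_odd h0
  have h4 : 4 ^ t = 2 ^ (2 * t) := by rw [pow_mul]; norm_num
  have hv : v < 2 * t := by
    refine (Nat.pow_lt_pow_iff_right (show 1 < 2 by norm_num)).1 ?_
    have := ha'.pos
    rw [mem_range, h4] at h1
    nlinarith [Nat.pos_of_ne_zero (pow_ne_zero v (two_ne_zero' ℕ))]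
  obtain ⟨q, hq⟩ : ∃ q, 2 * t = v + q := ⟨2 * t - v, by omega⟩
  refine (sum_le_sum fun x _ => norm_D_le_sum μ _).trans ?_
  rw [sum_comm]
  have key : ∀ i ∈ range (μ + 1), ∑ x ∈ H η s,
      (if |((2 ^ v * a' : ℕ) * (lam * x : ℕ) / 4 ^ t : ℝ) -
        round ((2 ^ v * a' : ℕ) * (lam * x : ℕ) / 4 ^ t : ℝ)| * 4 ^ i < 1 then (4 : ℝ) ^ (i + 1)
        else 0) ≤ 12 * 3 ^ s * (4 / 3) ^ i := by
    intro i _
    rw [← sum_filter, sum_const, nsmul_eq_mul]
    have h2 := card_near η s q i (a' * lam : ℕ) ((Int.odd_coe_nat _).2 (ha'.mul hl))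
      (by omega) (by omega)
    refine le_trans (mul_le_mul_of_nonneg_right (?_ : _ ≤ (3 : ℝ) ^ (s + 1) / 3 ^ i)
      (by positivity)) (le_of_eq (by rw [div_pow]; ring))
    rw [le_div_iff₀ (by positivity)]
    have h2' := (Nat.cast_le (α := ℝ)).2 h2
    rw [Nat.cast_mul, Nat.cast_pow, Nat.cast_pow, Nat.cast_ofNat] at h2'
    refine le_trans ?_ h2'
    gcongr with x hx
    intro h
    have h3 : ((2 ^ v * a' : ℕ) * (lam * x : ℕ) / 4 ^ t : ℝ) = (a' * lam * x : ℕ) / 2 ^ q := by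
      rw [show (4 : ℝ) ^ t = 2 ^ v * 2 ^ q by rw [← pow_add, ← hq, pow_mul]; norm_num]
      push_cast; field_simp
    rw [h3] at h
    refine ⟨(a' * lam * x : ℕ) - 2 ^ q * round (((a' * lam * x : ℕ) : ℝ) / 2 ^ q), ?_, ?_⟩
    · generalize round (((a' * lam * x : ℕ) : ℝ) / 2 ^ q) = n at h
      have h5 : (0 : ℝ) < 2 ^ q := by positivity
      rw [div_sub' h5.ne', abs_div, abs_of_pos h5, div_mul_eq_mul_div, div_lt_one h5] at h
      exact_mod_cast h
    · push_cast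
      exact ⟨_, by rw [sub_sub_cancel]⟩
  refine (sum_le_sum key).trans ?_
  rw [← mul_sum, geom_sum_eq (by norm_num), pow_succ]
  have : (0 : ℝ) < 3 ^ s := by positivity
  rw [show (4 / 3 - 1 : ℝ) = 3⁻¹ by norm_num, div_inv_eq_mul]
  nlinarith

end Pool.Agent.MP_5a7e96_nt.H63

end

-- part MP_5a7e96_nt.H63.Block
section

/-! The count on one block of exponents `Y + r + 2 ^ (e + 1) m`. -/

namespace Pool.Agent.MP_5a7e96_nt.H63

open Finset Real

theorem one_add_pow (z m : ℕ) : ∃ y, (1 + z) ^ m = 1 + m * z + z ^ 2 * y := by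
  induction m with
  | zero => exact ⟨0, by simp⟩
  | succ m ih =>
    obtain ⟨y, hy⟩ := ih
    exact ⟨m + y + z * y, by rw [pow_succ, hy]; ring⟩

theorem three_pow (e : ℕ) : ∃ lam, Odd lam ∧ 3 ^ 2 ^ (e + 1) = 1 + 2 ^ (e + 3) * lam := by
  induction e with
  | zero => exact ⟨1, odd_one, by norm_num⟩
  | succ e ih =>
    obtain ⟨lam, h1, h2⟩ := ih
    refine ⟨lam + 2 * (2 ^ (e + 1) * lam ^ 2), h1.add_even (even_two_mul _), ?_⟩
    rw [pow_succ 2 (e + 1), pow_mul, h2]; ring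

theorem three_pow_inj (e d : ℕ) (h : 3 ^ d ≡ 1 [MOD 2 ^ (e + 3)]) (hd : d < 2 ^ (e + 1)) :
    d = 0 := by
  by_contra h0
  obtain ⟨v, o, ho, rfl⟩ := Nat.exists_eq_two_pow_mul_odd h0
  have h1 := (Nat.modEq_iff_dvd' (Nat.one_le_pow _ _ (by norm_num))).1 h.symm
  rcases v with _ | v
  · obtain ⟨k, rfl⟩ := ho
    have h2 : 3 ^ (2 ^ 0 * (2 * k + 1)) ≡ 1 [MOD 8] :=
      h.of_dvd ⟨2 ^ e, by rw [pow_add]; ring⟩
    have h3 : 3 ^ (2 ^ 0 * (2 * k + 1)) ≡ 1 ^ k * 3 [MOD 8] := by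
      rw [pow_zero, one_mul, pow_succ, pow_mul]
      exact (Nat.ModEq.pow k (by decide)).mul_right 3
    rw [one_pow] at h3
    exact absurd (h2.symm.trans h3) (by decide)
  · obtain ⟨lam, l1, l2⟩ := three_pow v
    obtain ⟨y, hy⟩ := one_add_pow (2 ^ (v + 3) * lam) o
    have hv : v + 1 < e + 1 := by
      refine (Nat.pow_lt_pow_iff_right (show 1 < 2 by norm_num)).1 (lt_of_le_of_lt ?_ hd)
      exact Nat.le_mul_of_pos_right _ ho.pos
    rw [pow_mul, l2, hy, show 1 + o * (2 ^ (v + 3) * lam) + (2 ^ (v + 3) * lam) ^ 2 * y - 1 =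
      2 ^ (v + 3) * (o * lam + 2 * (2 ^ (v + 2) * lam ^ 2 * y)) by
        rw [add_assoc, Nat.add_sub_cancel_left]; ring] at h1
    have h2 := (pow_dvd_pow 2 (show v + 3 + 1 ≤ e + 3 by omega)).trans h1
    rw [pow_succ, Nat.mul_dvd_mul_iff_left (by positivity)] at h2
    exact Nat.not_even_iff_odd.2 ((ho.mul l1).add_even (even_two_mul _)) (even_iff_two_dvd.2 h2)

theorem three_pow_injOn (e Y : ℕ) :
    Set.InjOn (fun r => 3 ^ (Y + r) % 2 ^ (e + 3)) (range (2 ^ (e + 1)) : Finset ℕ) := by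
  have key : ∀ r d, r + d < 2 ^ (e + 1) →
      3 ^ (Y + r) % 2 ^ (e + 3) = 3 ^ (Y + (r + d)) % 2 ^ (e + 3) → d = 0 := by
    intro r d h1 h2
    refine three_pow_inj e d ?_ (by omega)
    refine Nat.ModEq.cancel_left_of_coprime (c := 3 ^ (Y + r))
      (Nat.Coprime.pow _ _ (by norm_num)) ?_
    rw [← pow_add, mul_one, add_assoc]
    exact h2.symm
  intro r hr r' hr' h
  simp only [coe_range, Set.mem_Iio] at hr hr' h
  rcases le_total r r' with h1 | h1 <;> obtain ⟨d, rfl⟩ := Nat.exists_eq_add_of_le h1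
  · rw [key r d hr' h, add_zero]
  · rw [key r' d hr h.symm, add_zero]

/-- Reduction to arithmetic progressions. -/
theorem block_le (η e t M Y : ℕ) (hη : η ≤ 1) (he : e + 1 + η = 2 * t) : ∃ lam, Odd lam ∧
    ∀ B : ℕ → ℝ, (∀ x, 0 ≤ B x) →
      (∀ c x, (((range M).filter fun m => good t ((c + lam * x * m) % 4 ^ t)).card : ℝ) ≤ B x) →
      (((range (2 ^ (e + 1) * M)).filter fun k =>
        good (t + 1 + t) (2 ^ η * 3 ^ (Y + k))).card : ℝ) ≤ ∑ x ∈ H η (t + 1), B x := by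
  obtain ⟨lam, l1, l2⟩ := three_pow e
  refine ⟨lam, l1, fun B B0 hB => ?_⟩
  have hs : 4 ^ (t + 1) = 2 ^ η * 2 ^ (e + 3) := by
    rw [← pow_add, show 4 = 2 ^ 2 by norm_num, ← pow_mul]; congr 1; omega
  have ht : 2 ^ (e + 3) = 4 ^ t * 2 ^ (2 - η) := by
    rw [show 4 = 2 ^ 2 by norm_num, ← pow_mul, ← pow_add]; congr 1; omega
  have hE : 0 < 2 ^ (e + 1) := by positivity
  set R := (range (2 ^ (e + 1))).filter fun r => 3 ^ (Y + r) % 2 ^ (e + 3) ∈ H η (t + 1)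
  have h1 : ((range (2 ^ (e + 1) * M)).filter fun k =>
      good (t + 1 + t) (2 ^ η * 3 ^ (Y + k))).card ≤ (R.sigma fun r => (range M).filter fun m =>
        good t ((2 ^ η * 3 ^ (Y + r) / 4 ^ (t + 1) +
          lam * (3 ^ (Y + r) % 2 ^ (e + 3)) * m) % 4 ^ t)).card := by
    refine card_le_card_of_injOn (fun k => ⟨k % 2 ^ (e + 1), k / 2 ^ (e + 1)⟩) ?_ ?_
    · intro k hk
      obtain ⟨k1, k2⟩ := mem_filter.1 hk
      have k3 : k / 2 ^ (e + 1) < M := Nat.div_lt_of_lt_mul (mem_range.1 k1)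
      have k4 := Nat.mod_lt k hE
      rw [← Nat.mod_add_div k (2 ^ (e + 1))] at k2
      simp only [coe_sigma, Set.mem_sigma_iff, mem_coe, R, mem_filter, mem_range]
      generalize k % 2 ^ (e + 1) = r at k2 k4 ⊢
      generalize k / 2 ^ (e + 1) = m at k2 k3 ⊢
      obtain ⟨y, hy⟩ := one_add_pow (2 ^ (e + 3) * lam) m
      have e1 : 2 ^ η * 3 ^ (Y + (r + 2 ^ (e + 1) * m)) = 2 ^ η * 3 ^ (Y + r) +
          4 ^ (t + 1) * (3 ^ (Y + r) * (m * lam + 2 ^ (e + 3) * lam ^ 2 * y)) := by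
        rw [← add_assoc, pow_add, pow_mul, l2, hy, hs]; ring
      have g1 := good_mod _ (t + 1) _ (by omega) k2
      have g2 := good_mod _ t _ le_rfl (good_div _ _ _ k2)
      rw [e1, Nat.add_mul_mod_self_left, hs, Nat.mul_mod_mul_left] at g1
      rw [e1, Nat.add_mul_div_left _ _ (by positivity)] at g2
      have k5 : 3 ^ (Y + r) % 2 ^ (e + 3) < 2 ^ (e + 3) := Nat.mod_lt _ (by positivity)
      have k6 : 2 ^ η * (3 ^ (Y + r) % 2 ^ (e + 3)) < 4 ^ (t + 1) := by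
        rw [hs]; exact Nat.mul_lt_mul_of_pos_left k5 (by positivity)
      refine ⟨⟨k4, mem_filter.2 ⟨mem_range.2 (lt_of_le_of_lt
        (Nat.le_mul_of_pos_left _ (by positivity)) k6), mem_filter.2 ⟨mem_range.2 k6, g1⟩, ?_⟩⟩,
        k3, ?_⟩
      · rw [Nat.odd_iff, Nat.mod_mod_of_dvd _ (dvd_pow_self 2 (by omega)), ← Nat.odd_iff]
        exact Odd.pow (by decide)
      · convert g2 using 1
        rw [← Nat.mod_add_div (3 ^ (Y + r)) (2 ^ (e + 3)), Nat.add_mul_mod_self_left,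
          Nat.mod_mod]
        generalize 3 ^ (Y + r) % 2 ^ (e + 3) = x
        generalize 3 ^ (Y + r) / 2 ^ (e + 3) = z
        generalize 2 ^ η * (x + 2 ^ (e + 3) * z) / 4 ^ (t + 1) = c
        rw [show c + (x + 2 ^ (e + 3) * z) * (m * lam + 2 ^ (e + 3) * lam ^ 2 * y) =
          c + lam * x * m + 4 ^ t * (2 ^ (2 - η) * (x * lam ^ 2 * y +
            z * (m * lam + 2 ^ (e + 3) * lam ^ 2 * y))) by
            rw [← mul_assoc (4 ^ t), ← ht]; ring, Nat.add_mul_mod_self_left]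
    · intro k _ k' _ h
      obtain ⟨h1, h2⟩ := Sigma.mk.inj_iff.1 h
      rw [← Nat.mod_add_div k (2 ^ (e + 1)), ← Nat.mod_add_div k' (2 ^ (e + 1)), h1, eq_of_heq h2]
  refine ((Nat.cast_le (α := ℝ)).2 h1).trans ?_
  rw [card_sigma, Nat.cast_sum]
  refine (sum_le_sum fun r _ => hB _ _).trans ?_
  rw [← sum_image (g := fun r => 3 ^ (Y + r) % 2 ^ (e + 3)) (f := B)
    ((three_pow_injOn e Y).mono (coe_subset.2 (filter_subset _ _)))]
  refine sum_le_sum_of_subset_of_nonneg (fun x hx => ?_) fun x _ _ => B0 x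
  obtain ⟨r, hr, rfl⟩ := mem_image.1 hx
  exact (mem_filter.1 hr).2

theorem block (η e t μ Y : ℕ) (hη : η ≤ 1) (he : e + 1 + η = 2 * t) :
    (((range (2 ^ (e + 1) * 4 ^ μ)).filter fun k =>
      good (t + 1 + t) (2 ^ η * 3 ^ (Y + k))).card : ℝ) ≤
      3 ^ (t + 1) * (3 ^ t * 4 ^ μ + 48 * 6 ^ t * (4 / 3) ^ μ) / 4 ^ t := by
  obtain ⟨lam, l1, l2⟩ := block_le η e t (4 ^ μ) Y hη he
  refine (l2 (fun x => (3 ^ t * (4 ^ μ : ℕ) + ∑ a ∈ (range (4 ^ t)).erase 0, ‖F t (a / 4 ^ t)‖ *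
    ‖D (4 ^ μ) (a * (lam * x : ℕ) / 4 ^ t)‖) / 4 ^ t) (fun x => by positivity)
    fun c x => (le_div_iff₀ (by positivity)).2 (count_ap t c _ _)).trans ?_
  rw [← sum_div, sum_add_distrib, sum_comm, sum_const, nsmul_eq_mul, mul_add]
  gcongr
  · exact_mod_cast card_H η (t + 1)
  · push_cast; rfl
  refine (sum_le_sum fun a ha => (mul_sum _ _ _).symm.le.trans (mul_le_mul_of_nonneg_left
    (sum_norm_D η (t + 1) t μ a lam l1 ha (by omega)) (norm_nonneg _))).trans ?_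
  rw [← sum_mul]
  refine (mul_le_mul_of_nonneg_right ((sum_le_sum_of_subset_of_nonneg (erase_subset _ _)
    fun _ _ _ => norm_nonneg _).trans (sum_norm_F t)) (by positivity)).trans (le_of_eq (by ring))

theorem good_of_digits : ∀ j n : ℕ, 0 ∉ Nat.digits 4 n → 4 ^ j ≤ n → good j n
  | 0, _, _, _ => trivial
  | j + 1, n, h, hn => by
    have h0 : 0 < 4 ^ j := by positivity
    rw [pow_succ] at hn
    rw [Nat.digits_def' (by norm_num) (by omega), List.mem_cons, not_or] at h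
    exact ⟨fun h1 => h.1 h1.symm, good_of_digits j _ h.2 (by omega)⟩

end Pool.Agent.MP_5a7e96_nt.H63

end

-- part MP_5a7e96_nt.H63.Main
section

/-! Choice of the parameters: `t = 19 j`, `μ = 12 j`. -/

namespace Pool.Agent.MP_5a7e96_nt.H63

open Finset Real

theorem numeric (n : ℕ) : ((2 * (19 * n + 1 + 19 * n) : ℕ) : ℝ) + 3 ^ (19 * n + 1) *
    (3 ^ (19 * n) * 4 ^ (12 * n) + 48 * 6 ^ (19 * n) * (4 / 3) ^ (12 * n)) / 4 ^ (19 * n) ≤
    300 * (3 ^ 38 / 4 ^ 7) ^ n := by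
  have h5 : (6 : ℝ) ^ (19 * n) * (4 / 3) ^ (12 * n) ≤ 3 ^ (19 * n) * 4 ^ (12 * n) := by
    rw [pow_mul, pow_mul, pow_mul, pow_mul, ← mul_pow, ← mul_pow]
    exact pow_le_pow_left₀ (by positivity) (by norm_num) n
  have h6 : (3 : ℝ) ^ (19 * n) * (3 ^ (19 * n) * 4 ^ (12 * n)) / 4 ^ (19 * n) =
      (3 ^ 38 / 4 ^ 7) ^ n := by
    rw [pow_mul, pow_mul, pow_mul, ← mul_pow, ← mul_pow, ← div_pow]; norm_num
  have h7 : 1 + (n : ℝ) * 78 ≤ (3 ^ 38 / 4 ^ 7) ^ n :=
    (one_add_mul_le_pow (by norm_num) n).trans (pow_le_pow_left₀ (by norm_num) (by norm_num) n)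
  have h8 : (0 : ℝ) < 3 ^ (19 * n) := by positivity
  have h9 : (0 : ℝ) < 4 ^ (19 * n) := by positivity
  have h0 : (0 : ℝ) ≤ n := Nat.cast_nonneg n
  rw [pow_succ, mul_assoc (48 : ℝ)]
  revert h5 h6 h7 h8 h9
  generalize (3 ^ 38 / 4 ^ 7 : ℝ) ^ n = A
  generalize (6 : ℝ) ^ (19 * n) * (4 / 3) ^ (12 * n) = B
  generalize (3 : ℝ) ^ (19 * n) * 4 ^ (12 * n) = C
  generalize (3 : ℝ) ^ (19 * n) = a
  generalize (4 : ℝ) ^ (19 * n) = b
  intro h5 h6 h7 h8 h9
  have : a * 3 * (C + 48 * B) / b ≤ 147 * A := by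
    rw [← h6, ← mul_div_assoc]
    exact div_le_div_of_nonneg_right (by nlinarith) h9.le
  push_cast
  linarith

theorem block' (η n Y X : ℕ) (hη : η ≤ 1) (hn : 1 ≤ n) (hX : 2 * X ≤ 4 ^ (31 * n)) :
    (((range X).filter fun k => 0 ∉ Nat.digits 4 (2 ^ η * 3 ^ (Y + k))).card : ℝ) ≤
      300 * (3 ^ 38 / 4 ^ 7) ^ n := by
  obtain ⟨e, he⟩ : ∃ e, e + 1 + η = 2 * (19 * n) := ⟨38 * n - 1 - η, by omega⟩
  have h1 := block η e (19 * n) (12 * n) Y hη he
  have h2 : X ≤ 2 ^ (e + 1) * 4 ^ (12 * n) := by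
    have h3 : 4 ^ (31 * n) ≤ 2 * (2 ^ (e + 1) * 4 ^ (12 * n)) := by
      rw [show 4 = 2 ^ 2 by norm_num, ← pow_mul, ← pow_mul, ← pow_add, ← pow_succ']
      exact Nat.pow_le_pow_right (by norm_num) (by omega)
    exact Nat.le_of_mul_le_mul_left (hX.trans h3) (by norm_num)
  refine le_trans ?_ (numeric n)
  generalize 19 * n = t at h1 h2 he ⊢
  have h3 : ((range X).filter fun k => 0 ∉ Nat.digits 4 (2 ^ η * 3 ^ (Y + k))) ⊆
      range (2 * (t + 1 + t)) ∪ (range (2 ^ (e + 1) * 4 ^ (12 * n))).filter fun k =>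
        good (t + 1 + t) (2 ^ η * 3 ^ (Y + k)) := by
    intro k hk
    obtain ⟨k1, k2⟩ := mem_filter.1 hk
    rw [mem_union, mem_range, or_iff_not_imp_left, not_lt]
    refine fun k3 => mem_filter.2 ⟨mem_range.2 ((mem_range.1 k1).trans_le h2),
      good_of_digits _ _ k2 ?_⟩
    calc 4 ^ (t + 1 + t) ≤ (3 ^ 2) ^ (t + 1 + t) := Nat.pow_le_pow_left (by norm_num) _
      _ ≤ 3 ^ (Y + k) := by rw [← pow_mul]; exact Nat.pow_le_pow_right (by norm_num) (by omega)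
      _ ≤ _ := Nat.le_mul_of_pos_left _ (by positivity)
  have h4 := (Nat.cast_le (α := ℝ)).2 ((card_le_card h3).trans (card_union_le _ _))
  rw [card_range, Nat.cast_add] at h4
  exact h4.trans (add_le_add le_rfl h1)

theorem count_le (η Y X : ℕ) (hη : η ≤ 1) :
    (((range X).filter fun k => 0 ∉ Nat.digits 4 (2 ^ η * 3 ^ (Y + k))).card : ℝ) ≤
      600 * (3 ^ 38 / 4 ^ 7) * (X : ℝ) ^ (0.746 : ℝ) := by
  rcases Nat.eq_zero_or_pos X with rfl | hX
  · simp only [range_zero, filter_empty, card_empty, Nat.cast_zero]; positivity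
  obtain ⟨j, hj⟩ : ∃ j, j = Nat.log (4 ^ 31) (2 * X) := ⟨_, rfl⟩
  have h1 : (4 ^ 31) ^ j ≤ 2 * X := hj ▸ Nat.pow_log_le_self _ (by omega)
  have h2 : 2 * X < (4 ^ 31) ^ (j + 1) := hj ▸ Nat.lt_pow_succ_log_self (by norm_num) _
  refine (block' η (j + 1) Y X hη (by omega) (by rw [pow_mul]; exact h2.le)).trans ?_
  have h3 : (3 ^ 38 / 4 ^ 7 : ℝ) ≤ (4 ^ 31) ^ (0.746 : ℝ) := by
    rw [show (0.746 : ℝ) = 373 * ((500 : ℕ) : ℝ)⁻¹ by norm_num, rpow_mul (by positivity),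
      le_rpow_inv_iff_of_pos (by positivity) (by positivity) (by norm_num), rpow_natCast,
      rpow_ofNat, div_pow, div_le_iff₀ (by positivity)]
    have := (Nat.cast_le (α := ℝ)).2
      (by decide +kernel : (3 ^ 38) ^ 500 ≤ (4 ^ 31) ^ 373 * (4 ^ 7) ^ 500)
    simpa only [Nat.cast_mul, Nat.cast_pow, Nat.cast_ofNat] using this
  have h4 : (3 ^ 38 / 4 ^ 7 : ℝ) ^ j ≤ 2 * (X : ℝ) ^ (0.746 : ℝ) := by
    calc (3 ^ 38 / 4 ^ 7 : ℝ) ^ j ≤ ((4 ^ 31) ^ (0.746 : ℝ)) ^ j :=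
          pow_le_pow_left₀ (by positivity) h3 j
      _ = ((4 ^ 31) ^ j) ^ (0.746 : ℝ) := by
          rw [← rpow_mul_natCast (by positivity), mul_comm, rpow_natCast_mul (by positivity)]
      _ ≤ (2 * X) ^ (0.746 : ℝ) := rpow_le_rpow (by positivity) (by exact_mod_cast h1) (by norm_num)
      _ = 2 ^ (0.746 : ℝ) * (X : ℝ) ^ (0.746 : ℝ) := mul_rpow (by norm_num) (by positivity)
      _ ≤ _ := by
          gcongr
          exact (rpow_le_rpow_of_exponent_le (by norm_num) (by norm_num)).trans_eq (rpow_one 2)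
  rw [pow_succ]
  nlinarith

end Pool.Agent.MP_5a7e96_nt.H63

end
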