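import Mathlib

-- part MP_5a7e96_nt.AP
section

/-!
# A variance bound for short arithmetic progressions modulo a prime power
-/

set_option autoImplicit false

namespace Pool.Agent.MP_5a7e96_nt

open Finset

/-- two naturals with the same quotient and congruent modulo `m` agree -/
theorem eq_of_div_of_dvd {m x y : ℕ} (h1 : x / m = y / m) (h2 : (m : ℤ) ∣ (x : ℤ) - y) : x = y := by
  have h3 : x % m = y % m := (Nat.modEq_iff_dvd.2 h2).symm
  rw [← Nat.div_add_mod x m, ← Nat.div_add_mod y m, h1, h3]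

theorem card_le_of_cong {m n : ℕ} (s : Finset ℕ) (hs : ∀ x ∈ s, x < m * n)
    (h : ∀ x ∈ s, ∀ y ∈ s, (m : ℤ) ∣ (x : ℤ) - y) : s.card ≤ n := by
  have : s.card ≤ (range n).card := by
    refine card_le_card_of_injOn (fun x => x / m) ?_ ?_
    · intro x hx
      simp only [coe_range, Set.mem_Iio]
      exact Nat.div_lt_of_lt_mul (hs x hx)
    · intro x hx y hy hxy
      exact eq_of_div_of_dvd hxy (h x hx y hy)
  simpa using this

theorem dvd_of_eq {a b c : ℤ} (h : a ∣ b) (e : b = c) : a ∣ c := e ▸ h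

variable {p : ℕ}

theorem cop_gam (hp : p.Prime) {ρ : ℕ} (hρ : ¬ p ∣ ρ) (z t : ℕ) :
    IsCoprime ((p : ℤ) ^ t) ((ρ : ℤ) + p * z) := by
  apply IsCoprime.pow_left
  have h1 : IsCoprime (p : ℤ) (ρ : ℤ) := by
    rw [Nat.isCoprime_iff_coprime]
    exact (Nat.Prime.coprime_iff_not_dvd hp).2 hρ
  exact h1.add_mul_left_right z

/-- number of pairs `(z, b)` with `(ρ + p z) (b - b') = y ≠ 0` modulo `p ^ (N + 1)` -/
theorem count_ne (hp : p.Prime) {ρ : ℕ} (hρ : ¬ p ∣ ρ) (N i b' : ℕ) (hb' : b' < p ^ i) (y : ℤ)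
    (hy : ¬ (p : ℤ) ^ (N + 1) ∣ y) :
    p * ((range (p ^ N) ×ˢ range (p ^ i)).filter
      (fun w => (p : ℤ) ^ (N + 1) ∣ ((ρ : ℤ) + p * w.1) * ((w.2 : ℤ) - b') - y)).card ≤ p ^ i := by
  set s := (range (p ^ N) ×ˢ range (p ^ i)).filter
      (fun w => (p : ℤ) ^ (N + 1) ∣ ((ρ : ℤ) + p * w.1) * ((w.2 : ℤ) - b') - y) with hs
  rcases s.eq_empty_or_nonempty with h0 | ⟨⟨z0, b0⟩, h0⟩
  · rw [h0]; simp
  have hpZ : Prime (p : ℤ) := Nat.prime_iff_prime_int.1 hp
  have hp0 : (p : ℤ) ≠ 0 := hpZ.ne_zero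
  have hp1 : 1 < p := hp.one_lt
  have h0' := h0
  simp only [hs, mem_filter, mem_product, mem_range] at h0'
  obtain ⟨⟨hz0, hb0⟩, hd0⟩ := h0'
  have hδ0 : (b0 : ℤ) - b' ≠ 0 := by
    intro h
    rw [h] at hd0
    apply hy
    simpa using hd0
  obtain ⟨t, δ1, hδ1, hndvd⟩ : ∃ (t : ℕ) (δ1 : ℤ), (b0 : ℤ) - b' = (p : ℤ) ^ t * δ1 ∧ ¬ (p : ℤ) ∣ δ1 := by
    obtain ⟨t, δ1, h1, h2⟩ := WfDvdMonoid.max_power_factor hδ0 hpZ.irreducible
    exact ⟨t, δ1, h2, h1⟩
  have hδ1ne : δ1 ≠ 0 := by rintro rfl; simp at hndvd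
  have hti : t < i := by
    have h1 : (p : ℤ) ^ t ≤ |(b0 : ℤ) - b'| := by
      rw [hδ1, abs_mul, abs_pow, Nat.abs_cast]
      have : 1 ≤ |δ1| := Int.one_le_abs hδ1ne
      nlinarith [pow_pos (show (0 : ℤ) < p by exact_mod_cast hp.pos) t]
    have h2 : |(b0 : ℤ) - b'| < (p : ℤ) ^ i := by
      have a1 : (b0 : ℤ) < (p : ℤ) ^ i := by exact_mod_cast hb0
      have a2 : (b' : ℤ) < (p : ℤ) ^ i := by exact_mod_cast hb'
      rw [abs_lt]; constructor <;> omega
    have h3 : (p : ℤ) ^ t < (p : ℤ) ^ i := lt_of_le_of_lt h1 h2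
    exact (pow_lt_pow_iff_right₀ (by exact_mod_cast hp1)).1 h3
  have htN : t ≤ N := by
    by_contra hc
    apply hy
    have h1 : (p : ℤ) ^ (N + 1) ∣ ((ρ : ℤ) + p * z0) * ((b0 : ℤ) - b') := by
      rw [hδ1]
      exact Dvd.dvd.mul_left (Dvd.dvd.mul_right (pow_dvd_pow _ (by omega)) _) _
    have := dvd_sub h1 hd0
    simpa using this
  -- every solution has `b ≡ b0` modulo `p ^ (t + 1)`
  have key : ∀ w ∈ s, (p : ℤ) ^ (t + 1) ∣ (w.2 : ℤ) - b0 := by
    rintro ⟨z, b⟩ hw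
    simp only [hs, mem_filter, mem_product, mem_range] at hw
    obtain ⟨-, hd⟩ := hw
    have h1 : (p : ℤ) ^ (t + 1) ∣ ((ρ : ℤ) + p * z) * ((b : ℤ) - b')
        - ((ρ : ℤ) + p * z0) * ((b0 : ℤ) - b') := by
      have := dvd_sub hd hd0
      refine (pow_dvd_pow _ (by omega : t + 1 ≤ N + 1)).trans ?_
      exact dvd_of_eq this (by ring)
    have h2 : (p : ℤ) ^ (t + 1) ∣ p * ((z : ℤ) - z0) * ((b0 : ℤ) - b') := by
      rw [hδ1]; exact ⟨((z : ℤ) - z0) * δ1, by ring⟩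
    have h3 : (p : ℤ) ^ (t + 1) ∣ ((ρ : ℤ) + p * z) * ((b : ℤ) - b0) := by
      have := dvd_sub h1 h2
      exact dvd_of_eq this (by ring)
    exact (cop_gam hp hρ z (t + 1)).dvd_of_dvd_mul_left h3
  have hcard : s.card ≤ (range (p ^ (i - t - 1)) ×ˢ range (p ^ t)).card := by
    refine card_le_card_of_injOn (fun w => (w.2 / p ^ (t + 1), w.1 / p ^ (N - t))) ?_ ?_
    · rintro ⟨z, b⟩ hw
      simp only [hs, coe_filter, mem_product, mem_range, Set.mem_ofPred_eq] at hw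
      obtain ⟨⟨hz, hb⟩, -⟩ := hw
      simp only [coe_product, coe_range, Set.mem_prod, Set.mem_Iio]
      constructor
      · apply Nat.div_lt_of_lt_mul
        rw [← pow_add]; rwa [show t + 1 + (i - t - 1) = i by omega]
      · apply Nat.div_lt_of_lt_mul
        rw [← pow_add]; rwa [show N - t + t = N by omega]
    · rintro ⟨z, b⟩ hw ⟨z', b''⟩ hw' he
      simp only [Prod.mk.injEq] at he
      have k1 := key _ hw
      have k2 := key _ hw'
      have hb : b = b'' := by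
        refine eq_of_div_of_dvd he.1 ?_
        have := dvd_sub k1 k2
        push_cast
        exact dvd_of_eq this (by ring)
      subst hb
      simp only [hs, coe_filter, mem_product, mem_range, Set.mem_ofPred_eq] at hw hw'
      have h1 : (p : ℤ) ^ (N + 1) ∣ p * ((z : ℤ) - z') * ((b : ℤ) - b') := by
        have := dvd_sub hw.2 hw'.2
        exact dvd_of_eq this (by ring)
      obtain ⟨m, hm⟩ := k1
      simp only at hm
      have h2 : (b : ℤ) - b' = (p : ℤ) ^ t * (δ1 + p * m) := by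
        have : (b : ℤ) - b' = ((b : ℤ) - b0) + ((b0 : ℤ) - b') := by ring
        rw [this, hm, hδ1]; ring
      have h3 : (p : ℤ) ^ (N - t) ∣ ((z : ℤ) - z') * (δ1 + p * m) := by
        have e : (p : ℤ) ^ (N + 1) = (p : ℤ) ^ (t + 1) * (p : ℤ) ^ (N - t) := by
          rw [← pow_add]; congr 1; omega
        rw [h2, e] at h1
        refine (mul_dvd_mul_iff_left (pow_ne_zero (t + 1) hp0)).1 ?_
        exact dvd_of_eq h1 (by ring)
      have h4 : IsCoprime ((p : ℤ) ^ (N - t)) (δ1 + p * m) := by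
        apply IsCoprime.pow_left
        exact ((hpZ.irreducible.coprime_iff_not_dvd).2 hndvd).add_mul_left_right m
      have h5 := h4.dvd_of_dvd_mul_right h3
      have hz : z = z' := eq_of_div_of_dvd he.2 (by exact_mod_cast h5)
      rw [hz]
  rw [card_product, card_range, card_range, ← pow_add] at hcard
  calc p * s.card ≤ p * p ^ (i - t - 1 + t) := Nat.mul_le_mul_left _ hcard
    _ = p ^ i := by rw [← pow_succ']; congr 1; omega

/-- the diagonal count -/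
theorem count_eq (hp : p.Prime) {ρ : ℕ} (hρ : ¬ p ∣ ρ) (N i b' : ℕ) (hi : i ≤ N + 1)
    (hb' : b' < p ^ i) (y : ℤ) (hy : (p : ℤ) ^ (N + 1) ∣ y) :
    ((range (p ^ N) ×ˢ range (p ^ i)).filter
      (fun w => (p : ℤ) ^ (N + 1) ∣ ((ρ : ℤ) + p * w.1) * ((w.2 : ℤ) - b') - y)).card ≤ p ^ N := by
  have : ((range (p ^ N) ×ˢ range (p ^ i)).filter
      (fun w => (p : ℤ) ^ (N + 1) ∣ ((ρ : ℤ) + p * w.1) * ((w.2 : ℤ) - b') - y)) ⊆
      range (p ^ N) ×ˢ {b'} := by
    rintro ⟨z, b⟩ hw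
    simp only [mem_filter, mem_product, mem_range, mem_singleton] at hw ⊢
    obtain ⟨⟨hz, hb⟩, hd⟩ := hw
    refine ⟨hz, ?_⟩
    have h1 : (p : ℤ) ^ (N + 1) ∣ ((ρ : ℤ) + p * z) * ((b : ℤ) - b') :=
      dvd_of_eq (dvd_add hd hy) (by ring)
    have h2 := (cop_gam hp hρ z (N + 1)).dvd_of_dvd_mul_left h1
    have h3 : p ^ i ≤ p ^ (N + 1) := Nat.pow_le_pow_right hp.pos hi
    refine eq_of_div_of_dvd (m := p ^ (N + 1)) ?_ (by exact_mod_cast h2)
    rw [Nat.div_eq_of_lt (by omega), Nat.div_eq_of_lt (by omega)]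
  simpa using card_le_card this

/-- the multiplier `ρ + p z` -/
def gam (p N ρ z : ℕ) : ZMod (p ^ (N + 1)) := ((ρ + p * z : ℕ) : ZMod (p ^ (N + 1)))

/-- number of `b < B` with `x - γ b ∈ C` -/
noncomputable def hits {q : ℕ} (C : Finset (ZMod q)) (B : ℕ) (γ x : ZMod q) : ℝ :=
  ∑ b ∈ range B, if x - γ * (b : ZMod q) ∈ C then 1 else 0

theorem sum_hits {q : ℕ} [NeZero q] (C : Finset (ZMod q)) (B : ℕ) (γ : ZMod q) :
    ∑ x, hits C B γ x = B * C.card := by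
  unfold hits
  rw [sum_comm]
  have : ∀ b ∈ range B, (∑ x : ZMod q, if x - γ * (b : ZMod q) ∈ C then (1 : ℝ) else 0) = C.card := by
    intro b _
    rw [← Equiv.sum_comp (Equiv.addRight (γ * (b : ZMod q)))]
    simp
  rw [sum_congr rfl this]
  simp

theorem sum_hits_sq {q : ℕ} [NeZero q] (C : Finset (ZMod q)) (B : ℕ) (γ : ZMod q) :
    ∑ x, hits C B γ x ^ 2 = ∑ c ∈ C, ∑ c' ∈ C, ∑ b' ∈ range B, ∑ b ∈ range B,
      if γ * ((b : ZMod q) - b') = c' - c then (1 : ℝ) else 0 := by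
  unfold hits
  simp_rw [sq, sum_mul_sum]
  rw [sum_comm]
  have e1 : ∀ b ∈ range B, (∑ x : ZMod q, ∑ b' ∈ range B,
      (if x - γ * (b : ZMod q) ∈ C then (1 : ℝ) else 0) * if x - γ * (b' : ZMod q) ∈ C then 1 else 0)
      = ∑ c ∈ C, ∑ c' ∈ C, ∑ b' ∈ range B,
        if γ * ((b : ZMod q) - b') = c' - c then (1 : ℝ) else 0 := by
    intro b _
    rw [← Equiv.sum_comp (Equiv.addRight (γ * (b : ZMod q)))]
    have e0 : ∀ x : ZMod q, (∑ b' ∈ range B,
        (if (Equiv.addRight (γ * (b : ZMod q))) x - γ * (b : ZMod q) ∈ C then (1 : ℝ) else 0) *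
          if (Equiv.addRight (γ * (b : ZMod q))) x - γ * (b' : ZMod q) ∈ C then 1 else 0)
        = if x ∈ C then (∑ b' ∈ range B,
          if x + γ * (b : ZMod q) - γ * (b' : ZMod q) ∈ C then (1 : ℝ) else 0) else 0 := by
      intro x
      by_cases hx : x ∈ C
      · simp only [Equiv.coe_addRight, add_sub_cancel_right, hx, if_true, one_mul]
        rfl
      · simp [hx]
    rw [sum_congr rfl fun x _ => e0 x, ← sum_filter, filter_mem_eq_inter, univ_inter]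
    refine sum_congr rfl fun c _ => ?_
    rw [sum_comm]
    refine sum_congr rfl fun b' _ => ?_
    have : ∀ c' : ZMod q, (γ * ((b : ZMod q) - b') = c' - c) ↔
        (c + γ * (b : ZMod q) - γ * (b' : ZMod q) = c') := by
      intro c'
      constructor
      · intro h; linear_combination h
      · intro h; linear_combination h
    simp_rw [this]
    rw [sum_ite_eq]
  rw [sum_congr rfl e1, sum_comm]
  refine sum_congr rfl fun c _ => ?_
  rw [sum_comm]
  refine sum_congr rfl fun c' _ => ?_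
  rw [sum_comm]

theorem gam_iff (hp : p.Prime) (N ρ z b b' : ℕ) (y : ZMod (p ^ (N + 1))) :
    gam p N ρ z * ((b : ZMod (p ^ (N + 1))) - b') = y ↔
      (p : ℤ) ^ (N + 1) ∣ ((ρ : ℤ) + p * z) * ((b : ℤ) - b') - (y.val : ℤ) := by
  have : NeZero (p ^ (N + 1)) := ⟨pow_ne_zero _ hp.ne_zero⟩
  rw [show (p : ℤ) ^ (N + 1) = ((p ^ (N + 1) : ℕ) : ℤ) by push_cast; rfl,
    ← ZMod.intCast_zmod_eq_zero_iff_dvd]
  unfold gam
  push_cast
  rw [ZMod.natCast_zmod_val, sub_eq_zero]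

theorem inner_count (hp : p.Prime) {ρ : ℕ} (hρ : ¬ p ∣ ρ) (N i b' : ℕ) (hi : i ≤ N + 1)
    (hb' : b' < p ^ i) (y : ZMod (p ^ (N + 1))) :
    (∑ z ∈ range (p ^ N), ∑ b ∈ range (p ^ i),
      if gam p N ρ z * ((b : ZMod (p ^ (N + 1))) - b') = y then (1 : ℝ) else 0)
      ≤ (p : ℝ) ^ i / p + if y = 0 then (p : ℝ) ^ N else 0 := by
  have : NeZero (p ^ (N + 1)) := ⟨pow_ne_zero _ hp.ne_zero⟩
  have hp0 : (0 : ℝ) < p := by exact_mod_cast hp.pos
  rw [← sum_product']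
  simp_rw [gam_iff hp]
  rw [← sum_filter, sum_const, nsmul_eq_mul, mul_one]
  split_ifs with h
  · have := count_eq hp hρ N i b' hi hb' (y.val : ℤ) (by rw [h]; simp)
    have h2 : (0 : ℝ) ≤ (p : ℝ) ^ i / p := by positivity
    have h3 := (Nat.cast_le (α := ℝ)).2 this
    push_cast at h3
    linarith
  · have hy : ¬ (p : ℤ) ^ (N + 1) ∣ (y.val : ℤ) := by
      intro hd
      apply h
      have h1 : p ^ (N + 1) ∣ y.val := by exact_mod_cast hd
      have h2 := Nat.eq_zero_of_dvd_of_lt h1 (ZMod.val_lt y)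
      exact (ZMod.val_eq_zero y).1 h2
    have := count_ne hp hρ N i b' hb' (y.val : ℤ) hy
    have h3 := (Nat.cast_le (α := ℝ)).2 this
    push_cast at h3
    rw [add_zero, le_div_iff₀ hp0]
    linarith

/-- the variance bound -/
theorem variance (hp : p.Prime) [NeZero p] {ρ : ℕ} (hρ : ¬ p ∣ ρ) (N i : ℕ) (hi : i ≤ N + 1)
    (C : Finset (ZMod (p ^ (N + 1)))) :
    ∑ z ∈ range (p ^ N), ∑ x, (hits C (p ^ i) (gam p N ρ z) x
      - (p : ℝ) ^ i * C.card / (p : ℝ) ^ (N + 1)) ^ 2 ≤ (p : ℝ) ^ N * (p : ℝ) ^ i * C.card := by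
  have hp0 : (0 : ℝ) < p := by exact_mod_cast hp.pos
  set μ : ℝ := (p : ℝ) ^ i * C.card / (p : ℝ) ^ (N + 1) with hμ
  have e1 : ∀ z ∈ range (p ^ N), ∑ x, (hits C (p ^ i) (gam p N ρ z) x - μ) ^ 2
      = ∑ x, hits C (p ^ i) (gam p N ρ z) x ^ 2 - μ * ((p : ℝ) ^ i * C.card) := by
    intro z _
    have : ∀ x, (hits C (p ^ i) (gam p N ρ z) x - μ) ^ 2
        = hits C (p ^ i) (gam p N ρ z) x ^ 2 - 2 * μ * hits C (p ^ i) (gam p N ρ z) x + μ ^ 2 := by
      intro x; ring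
    simp_rw [this]
    rw [sum_add_distrib, sum_sub_distrib, ← mul_sum, sum_hits, sum_const, card_univ, ZMod.card,
      nsmul_eq_mul]
    push_cast
    rw [hμ]
    field_simp
    ring
  rw [sum_congr rfl e1, sum_sub_distrib]
  simp_rw [sum_hits_sq]
  have e2 : (∑ z ∈ range (p ^ N), ∑ c ∈ C, ∑ c' ∈ C, ∑ b' ∈ range (p ^ i), ∑ b ∈ range (p ^ i),
      if gam p N ρ z * ((b : ZMod (p ^ (N + 1))) - b') = c' - c then (1 : ℝ) else 0)
      ≤ ∑ c ∈ C, ∑ c' ∈ C, ∑ b' ∈ range (p ^ i),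
        ((p : ℝ) ^ i / p + if c' - c = 0 then (p : ℝ) ^ N else 0) := by
    rw [sum_comm]
    refine sum_le_sum fun c _ => ?_
    rw [sum_comm]
    refine sum_le_sum fun c' _ => ?_
    rw [sum_comm]
    refine sum_le_sum fun b' hb' => ?_
    exact inner_count hp hρ N i b' hi (mem_range.1 hb') _
  have e3 : (∑ c ∈ C, ∑ c' ∈ C, ∑ b' ∈ range (p ^ i),
        ((p : ℝ) ^ i / p + if c' - c = 0 then (p : ℝ) ^ N else 0))
      = (C.card : ℝ) ^ 2 * ((p : ℝ) ^ i * ((p : ℝ) ^ i / p)) + C.card * ((p : ℝ) ^ i * (p : ℝ) ^ N) := by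
    have : ∀ c ∈ C, (∑ c' ∈ C, ∑ b' ∈ range (p ^ i),
        ((p : ℝ) ^ i / p + if c' - c = 0 then (p : ℝ) ^ N else 0))
        = C.card * ((p : ℝ) ^ i * ((p : ℝ) ^ i / p)) + (p : ℝ) ^ i * (p : ℝ) ^ N := by
      intro c hc
      simp only [sum_const, card_range, nsmul_eq_mul, mul_add, sum_add_distrib, sub_eq_zero,
        ← mul_sum, sum_ite_eq', if_pos hc]
      push_cast
      ring
    rw [sum_congr rfl this, sum_const, nsmul_eq_mul]
    ring
  rw [e3] at e2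
  have e4 : ∑ z ∈ range (p ^ N), μ * ((p : ℝ) ^ i * C.card)
      = (C.card : ℝ) ^ 2 * ((p : ℝ) ^ i * ((p : ℝ) ^ i / p)) := by
    rw [sum_const, card_range, nsmul_eq_mul, hμ]
    push_cast
    field_simp
    ring
  rw [e4]
  linarith

theorem gam_mul_inj (hp : p.Prime) {ρ : ℕ} (hρ : ¬ p ∣ ρ) (N z b b' : ℕ)
    (h : gam p N ρ z * (b : ZMod (p ^ (N + 1))) = gam p N ρ z * (b' : ZMod (p ^ (N + 1)))) :
    ((p ^ (N + 1) : ℕ) : ℤ) ∣ (b : ℤ) - b' := by
  have : NeZero (p ^ (N + 1)) := ⟨pow_ne_zero _ hp.ne_zero⟩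
  have h1 : gam p N ρ z * ((b : ZMod (p ^ (N + 1))) - b') = 0 := by linear_combination h
  rw [gam_iff hp] at h1
  simp only [ZMod.val_zero, Nat.cast_zero, sub_zero] at h1
  have h2 := (cop_gam hp hρ z (N + 1)).dvd_of_dvd_mul_left h1
  exact_mod_cast h2

/-- number of `b < B` with `β + γ b ∈ C` -/
def apCount {q : ℕ} (C : Finset (ZMod q)) (B : ℕ) (β γ : ZMod q) : ℕ :=
  ((range B).filter (fun b : ℕ => β + γ * (b : ZMod q) ∈ C)).card

theorem apCount_long (hp : p.Prime) {ρ : ℕ} (hρ : ¬ p ∣ ρ) (N i z : ℕ) (hi : N + 1 ≤ i)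
    (C : Finset (ZMod (p ^ (N + 1)))) (β : ZMod (p ^ (N + 1))) :
    (apCount C (p ^ i) β (gam p N ρ z) : ℝ) ≤ (p : ℝ) ^ i * C.card / (p : ℝ) ^ (N + 1) := by
  have hp0 : (0 : ℝ) < p := by exact_mod_cast hp.pos
  have : apCount C (p ^ i) β (gam p N ρ z) ≤ (range (p ^ (i - (N + 1))) ×ˢ C).card := by
    refine card_le_card_of_injOn
      (fun b => (b / p ^ (N + 1), β + gam p N ρ z * (b : ZMod (p ^ (N + 1))))) ?_ ?_
    · intro b hb
      simp only [coe_filter, mem_range, Set.mem_ofPred_eq] at hb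
      simp only [coe_product, coe_range, Set.mem_prod, Set.mem_Iio, mem_coe]
      refine ⟨Nat.div_lt_of_lt_mul ?_, hb.2⟩
      rw [← pow_add, show N + 1 + (i - (N + 1)) = i by omega]; exact hb.1
    · intro b _ b' _ he
      simp only [Prod.mk.injEq, add_right_inj] at he
      exact eq_of_div_of_dvd he.1 (gam_mul_inj hp hρ N z b b' he.2)
  rw [card_product, card_range] at this
  have h3 := (Nat.cast_le (α := ℝ)).2 this
  push_cast at h3
  rw [le_div_iff₀ (by positivity)]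
  calc _ ≤ (p : ℝ) ^ (i - (N + 1)) * C.card * (p : ℝ) ^ (N + 1) := by gcongr
    _ = (p : ℝ) ^ i * C.card := by
      rw [mul_right_comm, ← pow_add, show i - (N + 1) + (N + 1) = i by omega]

theorem apCount_le_hits {q : ℕ} (C : Finset (ZMod q)) (B : ℕ) (β γ : ZMod q) :
    (B : ℝ) * apCount C B β γ ≤ ∑ b ∈ range (2 * B), hits C B γ (β + γ * (b : ZMod q)) := by
  unfold hits apCount
  rw [sum_comm]
  have : ∀ b2 ∈ range B, (((range B).filter (fun b : ℕ => β + γ * (b : ZMod q) ∈ C)).card : ℝ)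
      ≤ ∑ b ∈ range (2 * B), if β + γ * (b : ZMod q) - γ * (b2 : ZMod q) ∈ C then (1 : ℝ) else 0 := by
    intro b2 hb2
    rw [← sum_filter, sum_const, nsmul_eq_mul, mul_one, Nat.cast_le]
    refine card_le_card_of_injOn (fun b => b + b2) ?_ ?_
    · intro b hb
      simp only [coe_filter, mem_range, Set.mem_ofPred_eq] at hb hb2 ⊢
      refine ⟨by omega, ?_⟩
      convert hb.2 using 1
      push_cast; ring
    · intro b _ b' _ he
      simpa using he
  have h2 := sum_le_sum this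
  rwa [sum_const, card_range, nsmul_eq_mul] at h2

/-- Progressions `β a + γ a * b`, `b < p ^ i`, with differences `γ a` that are units in a fixed
class modulo `p`, each used at most `M` times, hit `C` about the expected number of times. -/
theorem ap_bound (hp : p.Prime) {ρ : ℕ} (hρ : ¬ p ∣ ρ) (N i M : ℕ)
    (C : Finset (ZMod (p ^ (N + 1)))) (A : Finset ℕ) (β : ℕ → ZMod (p ^ (N + 1))) (z : ℕ → ℕ)
    (hz : ∀ a ∈ A, z a < p ^ N) (hM : ∀ w, (A.filter (fun a => z a = w)).card ≤ M) :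
    (∑ a ∈ A, (apCount C (p ^ i) (β a) (gam p N ρ (z a)) : ℝ))
      ≤ 2 * (p : ℝ) ^ i * A.card * C.card / (p : ℝ) ^ (N + 1)
        + √(2 * M * A.card * C.card * (p : ℝ) ^ N) := by
  have : NeZero p := ⟨hp.ne_zero⟩
  have hp0 : (0 : ℝ) < p := by exact_mod_cast hp.pos
  set μ : ℝ := (p : ℝ) ^ i * C.card / (p : ℝ) ^ (N + 1) with hμ
  have hμ0 : 0 ≤ μ := by positivity
  have emain : 2 * (p : ℝ) ^ i * A.card * C.card / (p : ℝ) ^ (N + 1) = 2 * A.card * μ := by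
    rw [hμ]; ring
  rw [emain]
  rcases le_or_gt (N + 1) i with hi | hi
  · have h1 : (∑ a ∈ A, (apCount C (p ^ i) (β a) (gam p N ρ (z a)) : ℝ)) ≤ ∑ a ∈ A, μ :=
      sum_le_sum fun a _ => apCount_long hp hρ N i (z a) hi C (β a)
    rw [sum_const, nsmul_eq_mul] at h1
    have h2 := Real.sqrt_nonneg (2 * M * A.card * C.card * (p : ℝ) ^ N)
    have h3 : 0 ≤ (A.card : ℝ) * μ := by positivity
    linarith
  set B : ℕ := p ^ i with hB
  have hBR : (B : ℝ) = (p : ℝ) ^ i := by rw [hB]; push_cast; rfl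
  have hB0 : (0 : ℝ) < B := by rw [hBR]; positivity
  have h2B : 2 * B ≤ p ^ (N + 1) := by
    have h1 : p ^ i ≤ p ^ N := Nat.pow_le_pow_right hp.pos (by omega)
    have h2 := hp.two_le
    rw [pow_succ]; nlinarith
  set f : ℕ × ℕ → ℝ := fun w => hits C B (gam p N ρ (z w.1))
    (β w.1 + gam p N ρ (z w.1) * (w.2 : ZMod (p ^ (N + 1)))) - μ with hf
  have s1 : (B : ℝ) * ∑ a ∈ A, (apCount C B (β a) (gam p N ρ (z a)) : ℝ)
      ≤ ∑ w ∈ A ×ˢ range (2 * B), f w + 2 * B * A.card * μ := by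
    rw [mul_sum, sum_product]
    have : ∀ a ∈ A, (B : ℝ) * (apCount C B (β a) (gam p N ρ (z a)) : ℝ)
        ≤ ∑ b ∈ range (2 * B), f (a, b) + 2 * B * μ := by
      intro a _
      refine (apCount_le_hits C B _ _).trans (le_of_eq ?_)
      simp only [hf, sum_sub_distrib, sum_const, card_range, nsmul_eq_mul]
      push_cast; ring
    refine (sum_le_sum this).trans (le_of_eq ?_)
    rw [sum_add_distrib, sum_const, nsmul_eq_mul]; ring
  set G : ℕ → ℝ := fun w => ∑ x, (hits C B (gam p N ρ w) x - μ) ^ 2 with hG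
  have hG0 : ∀ w, 0 ≤ G w := fun w => sum_nonneg fun x _ => sq_nonneg _
  have s2 : ∑ w ∈ A ×ˢ range (2 * B), f w ^ 2 ≤ ∑ a ∈ A, G (z a) := by
    rw [sum_product]
    refine sum_le_sum fun a _ => ?_
    have hinj : Set.InjOn (fun b : ℕ => β a + gam p N ρ (z a) * (b : ZMod (p ^ (N + 1))))
        (range (2 * B) : Finset ℕ) := by
      intro b hb b' hb' he
      simp only [coe_range, Set.mem_Iio] at hb hb'
      simp only [add_right_inj] at he
      refine eq_of_div_of_dvd (m := p ^ (N + 1)) ?_ (gam_mul_inj hp hρ N _ b b' he)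
      rw [Nat.div_eq_of_lt (by omega), Nat.div_eq_of_lt (by omega)]
    have := sum_image (f := fun x => (hits C B (gam p N ρ (z a)) x - μ) ^ 2) hinj
    simp only [hf, hG]
    rw [← this]
    exact sum_le_sum_of_subset_of_nonneg (subset_univ _) fun x _ _ => sq_nonneg _
  have s3 : ∑ a ∈ A, G (z a) ≤ M * ∑ w ∈ range (p ^ N), G w := by
    rw [← sum_fiberwise_of_maps_to (s := A) (t := range (p ^ N)) (g := z)
      (fun a ha => mem_range.2 (hz a ha)), mul_sum]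
    refine sum_le_sum fun w _ => ?_
    have : ∑ a ∈ A with z a = w, G (z a) = ∑ a ∈ A with z a = w, G w :=
      sum_congr rfl fun a ha => by rw [(mem_filter.1 ha).2]
    rw [this, sum_const, nsmul_eq_mul]
    exact mul_le_mul_of_nonneg_right (by exact_mod_cast hM w) (hG0 w)
  have s4 : ∑ w ∈ range (p ^ N), G w ≤ (p : ℝ) ^ N * (p : ℝ) ^ i * C.card :=
    variance hp hρ N i hi.le C
  have s5 : (∑ w ∈ A ×ˢ range (2 * B), f w) ^ 2
      ≤ (B : ℝ) ^ 2 * (2 * M * A.card * C.card * (p : ℝ) ^ N) := by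
    refine (sq_sum_le_card_mul_sum_sq).trans ?_
    rw [card_product, card_range]
    push_cast
    calc (A.card : ℝ) * (2 * B) * ∑ w ∈ A ×ˢ range (2 * B), f w ^ 2
        ≤ (A.card : ℝ) * (2 * B) * (M * ((p : ℝ) ^ N * (p : ℝ) ^ i * C.card)) := by
          gcongr
          exact s2.trans (s3.trans (by gcongr))
      _ = _ := by rw [← hBR]; ring
  have s6 : ∑ w ∈ A ×ˢ range (2 * B), f w ≤ B * √(2 * M * A.card * C.card * (p : ℝ) ^ N) := by
    have := Real.le_sqrt_of_sq_le s5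
    rwa [Real.sqrt_mul (by positivity), Real.sqrt_sq hB0.le] at this
  refine le_of_mul_le_mul_left ?_ hB0
  nlinarith

end Pool.Agent.MP_5a7e96_nt

end

-- part MP_5a7e96_nt.Core
section

/-!
# Low digits of `c * a ^ k` in base `p ^ e`: twice as many digits as one period controls
-/

set_option autoImplicit false

namespace Pool.Agent.MP_5a7e96_nt

open Finset

/-- the lowest `j` digits of `x` in base `g` lie in `D` -/
def Good (g : ℕ) (D : Finset ℕ) (j x : ℕ) : Prop := ∀ i < j, x / g ^ i % g ∈ D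

instance (g : ℕ) (D : Finset ℕ) (j : ℕ) : DecidablePred (Good g D j) :=
  fun x => by unfold Good; infer_instance

theorem card_good (g : ℕ) (D : Finset ℕ) (j : ℕ) :
    ((range (g ^ j)).filter (Good g D j)).card ≤ D.card ^ j := by
  induction j with
  | zero => simpa using card_filter_le (range 1) (Good g D 0)
  | succ j ih =>
    have : ((range (g ^ (j + 1))).filter (Good g D (j + 1))).card
        ≤ (((range (g ^ j)).filter (Good g D j)) ×ˢ D).card := by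
      refine card_le_card_of_injOn (fun x => (x / g, x % g)) ?_ ?_
      · intro x hx
        simp only [coe_filter, mem_range, Set.mem_ofPred_eq] at hx
        simp only [coe_product, coe_filter, mem_range, Set.mem_prod, Set.mem_ofPred_eq, mem_coe]
        refine ⟨⟨Nat.div_lt_of_lt_mul (by rw [← pow_succ']; exact hx.1), fun i hi => ?_⟩, ?_⟩
        · rw [Nat.div_div_eq_div_mul, ← pow_succ']
          exact hx.2 (i + 1) (by omega)
        · simpa using hx.2 0 (by omega)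
      · intro x _ y _ he
        simp only [Prod.mk.injEq] at he
        rw [← Nat.div_add_mod x g, ← Nat.div_add_mod y g, he.1, he.2]
    rw [card_product] at this
    rw [pow_succ]
    exact this.trans (Nat.mul_le_mul_right _ ih)

theorem Good.mod {g : ℕ} {D : Finset ℕ} {j x : ℕ} (h : Good g D j x) : Good g D j (x % g ^ j) := by
  intro i hi
  have e : g ^ j = g ^ i * g ^ (j - i) := by rw [← pow_add]; congr 1; omega
  rw [e, Nat.mod_mul_right_div_self, Nat.mod_mod_of_dvd _ (dvd_pow_self g (by omega))]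
  exact h i hi

theorem Good.div {g : ℕ} {D : Finset ℕ} {j j' x : ℕ} (h : Good g D (j + j') x) :
    Good g D j' (x / g ^ j) := by
  intro i hi
  rw [Nat.div_div_eq_div_mul, ← pow_add]
  exact h _ (by omega)

theorem Good.mono {g : ℕ} {D : Finset ℕ} {j j' x : ℕ} (h : Good g D j x) (hj : j' ≤ j) :
    Good g D j' x := fun i hi => h i (by omega)

theorem good_of_digits {g : ℕ} (hg : 1 < g) {D : Finset ℕ} {m x : ℕ} (hx : g ^ m ≤ x)
    (h : ∀ y ∈ Nat.digits g x, y ∈ D) : Good g D m x := by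
  intro i hi
  have h1 : i < (Nat.digits g x).length :=
    (Nat.lt_digits_length_iff hg x).2 ((Nat.pow_le_pow_right (by omega) hi.le).trans hx)
  rw [← Nat.getD_digits x i hg, List.getD_eq_getElem _ _ h1]
  exact h _ (List.getElem_mem h1)

theorem one_add_pow (y b : ℕ) : ∃ w, (1 + y) ^ b = 1 + y * b + y ^ 2 * w := by
  induction b with
  | zero => exact ⟨0, by simp⟩
  | succ b ih =>
    obtain ⟨w, hw⟩ := ih
    exact ⟨w + b + y * w, by rw [pow_succ, hw]; ring⟩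

variable {p : ℕ}

theorem lte_pow {a s u0 : ℕ} (hs : 2 ≤ s) (ha : a = 1 + p ^ s * u0) (hu : ¬ p ∣ u0)
    (t : ℕ) : ∃ u, a ^ (p ^ t) = 1 + p ^ (s + t) * u ∧ ¬ p ∣ u := by
  induction t with
  | zero => exact ⟨u0, by simpa using ha, hu⟩
  | succ t ih =>
    obtain ⟨u, h1, h2⟩ := ih
    obtain ⟨w, hw⟩ := one_add_pow (p ^ (s + t) * u) p
    obtain ⟨m, rfl⟩ : ∃ m, s = m + 2 := ⟨s - 2, by omega⟩
    refine ⟨u + p * (p ^ (m + t) * u ^ 2 * w), ?_, ?_⟩
    · rw [pow_succ, pow_mul, h1, hw]; ring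
    · intro hd
      exact h2 ((Nat.dvd_add_left (dvd_mul_right _ _)).1 hd)

theorem lte_dvd (hp : p.Prime) {a s u0 : ℕ} (hs : 2 ≤ s) (ha : a = 1 + p ^ s * u0) (hu : ¬ p ∣ u0)
    (N δ : ℕ) (h : a ^ δ ≡ 1 [MOD p ^ (s + N)]) : p ^ N ∣ δ := by
  rcases Nat.eq_zero_or_pos δ with rfl | hδ
  · simp
  obtain ⟨t, δ1, h1, h2⟩ := Nat.exists_eq_pow_mul_and_not_dvd hδ.ne' p hp.ne_one
  rcases le_or_gt N t with hN | hN
  · rw [h2]; exact (pow_dvd_pow _ hN).mul_right _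
  exfalso
  obtain ⟨u, e1, e2⟩ := lte_pow hs ha hu t
  obtain ⟨w, hw⟩ := one_add_pow (p ^ (s + t) * u) δ1
  have e3 : a ^ δ = 1 + p ^ (s + t) * (u * δ1 + p ^ (s + t) * u ^ 2 * w) := by
    rw [h2, pow_mul, e1, hw]; ring
  have h3 : p ^ (s + N) ∣ p ^ (s + t) * (u * δ1 + p ^ (s + t) * u ^ 2 * w) := by
    have := (Nat.modEq_iff_dvd' (by rw [e3]; omega)).1 h.symm
    rwa [e3, Nat.add_sub_cancel_left] at this
  have h4 : p ^ (s + t) * p ∣ p ^ (s + t) * (u * δ1 + p ^ (s + t) * u ^ 2 * w) := by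
    rw [← pow_succ]; exact (pow_dvd_pow _ (by omega)).trans h3
  have h5 := Nat.dvd_of_mul_dvd_mul_left (pow_pos hp.pos _) h4
  have h6 : p ∣ p ^ (s + t) * u ^ 2 * w :=
    ((dvd_pow_self p (by omega)).mul_right _).mul_right _
  have h7 := (Nat.dvd_add_left h6).1 h5
  rcases (Nat.Prime.dvd_mul hp).1 h7 with h8 | h8
  · exact e2 h8
  · exact h1 h8

theorem cong_of_pow (hp : p.Prime) {a s u0 : ℕ} (hs : 2 ≤ s) (ha : a = 1 + p ^ s * u0)
    (hu : ¬ p ∣ u0) {m : ℕ} (hm : ¬ p ∣ m) (N r r' : ℕ)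
    (h : m * a ^ r ≡ m * a ^ r' [MOD p ^ (s + N)]) : ((p ^ N : ℕ) : ℤ) ∣ (r : ℤ) - r' := by
  have hpa : ¬ p ∣ a := by
    intro hd
    rw [ha] at hd
    have : p ∣ p ^ s * u0 := (dvd_pow_self p (by omega)).mul_right _
    exact hp.one_lt.ne' (Nat.dvd_one.1 ((Nat.dvd_add_left this).1 hd))
  have aux : ∀ r r' : ℕ, r' ≤ r → m * a ^ r ≡ m * a ^ r' [MOD p ^ (s + N)] →
      ((p ^ N : ℕ) : ℤ) ∣ (r : ℤ) - r' := by
    intro r r' hr h
    obtain ⟨δ, rfl⟩ := Nat.exists_eq_add_of_le hr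
    have hc : Nat.gcd (p ^ (s + N)) (m * a ^ r') = 1 := by
      apply Nat.Coprime.pow_left
      rw [Nat.Prime.coprime_iff_not_dvd hp]
      intro hd
      rcases (Nat.Prime.dvd_mul hp).1 hd with h8 | h8
      · exact hm h8
      · exact hpa (hp.dvd_of_dvd_pow h8)
    have h1 : m * a ^ r' * a ^ δ ≡ m * a ^ r' * 1 [MOD p ^ (s + N)] := by
      rwa [mul_one, mul_assoc, ← pow_add]
    have h2 := lte_dvd hp hs ha hu N δ (Nat.ModEq.cancel_left_of_coprime hc h1)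
    push_cast
    rw [add_sub_cancel_left]
    exact_mod_cast h2
  rcases le_total r' r with hr | hr
  · exact aux r r' hr h
  · exact dvd_sub_comm.1 (aux r' r hr h.symm)

/-- the finite estimate; `g = p ^ e`, `c = p ^ v * c'`, `j = v + j'` -/
theorem core (hp : p.Prime) {e : ℕ} (he : 0 < e) (D : Finset ℕ) {a s u0 : ℕ} (hs : 2 ≤ s)
    (ha : a = 1 + p ^ s * u0) (hu : ¬ p ∣ u0) (v : ℕ) {c' : ℕ} (hc : ¬ p ∣ c') (j' : ℕ)
    (hj : s + 1 ≤ j') (i : ℕ) :
    ((((range (p ^ (e * (v + j') - v - s) * p ^ i)).filter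
      (fun k => Good (p ^ e) D (v + j' + j') (p ^ v * c' * a ^ k))).card : ℕ) : ℝ)
      ≤ 2 * (p : ℝ) ^ i * (D.card : ℝ) ^ (v + j') * (D.card : ℝ) ^ j' / ((p : ℝ) ^ e) ^ j'
        + √(2 * ((p : ℝ) ^ e) ^ v * (D.card : ℝ) ^ (v + j') * (D.card : ℝ) ^ j'
          * ((p : ℝ) ^ e) ^ j') := by
  have hp0 : (0 : ℝ) < p := by exact_mod_cast hp.pos
  have hp1 : (1 : ℝ) ≤ p := by exact_mod_cast hp.pos
  have hej : j' ≤ e * j' := Nat.le_mul_of_pos_left _ he
  have hev : v ≤ e * v := Nat.le_mul_of_pos_left _ he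
  obtain ⟨N, hN⟩ : ∃ N, e * j' = N + 1 := ⟨e * j' - 1, by omega⟩
  have : NeZero (p ^ (N + 1)) := ⟨pow_ne_zero _ hp.ne_zero⟩
  set t := e * (v + j') - v - s with ht
  have ht' : s + t + v = e * (v + j') := by rw [ht, mul_add]; omega
  set g := p ^ e with hg
  have hgj : g ^ (v + j') = p ^ (s + t + v) := by rw [hg, ← pow_mul, ht']
  have hgj' : g ^ j' = p ^ (N + 1) := by rw [hg, ← pow_mul, hN]
  set R := p ^ t with hR
  have hR0 : 0 < R := pow_pos hp.pos _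
  obtain ⟨u, hu1, hu2⟩ := lte_pow hs ha hu t
  set A := (range R).filter (fun r => Good g D (v + j') (p ^ v * c' * a ^ r)) with hA
  set C : Finset (ZMod (p ^ (N + 1))) := univ.filter (fun y => Good g D j' y.val) with hC
  set ρ := c' * u % p with hρ
  have hcu : ¬ p ∣ c' * u := fun hd => ((Nat.Prime.dvd_mul hp).1 hd).elim hc hu2
  have hρ' : ¬ p ∣ ρ := fun hd => hcu ((Nat.dvd_mod_iff dvd_rfl).1 hd)
  set z : ℕ → ℕ := fun r => c' * u * a ^ r % p ^ (N + 1) / p with hz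
  set β : ℕ → ZMod (p ^ (N + 1)) := fun r => ((p ^ v * c' * a ^ r / g ^ (v + j') : ℕ) : _) with hβ
  have ha1 : a ≡ 1 [MOD p] := by
    rw [ha]
    have : p ∣ p ^ s * u0 := (dvd_pow_self p (by omega)).mul_right _
    exact ((Nat.modEq_iff_dvd' (by omega)).2 (by simpa using this)).symm
  have hzr : ∀ r, ρ + p * z r = c' * u * a ^ r % p ^ (N + 1) := by
    intro r
    have h1 : c' * u * a ^ r % p ^ (N + 1) % p = ρ := by
      rw [Nat.mod_mod_of_dvd _ (dvd_pow_self p (by omega))]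
      have := (ha1.pow r).mul_left (c' * u)
      rw [one_pow, mul_one] at this
      exact this
    simp only [hz]
    rw [← h1, Nat.mod_add_div]
  have hgam : ∀ r, gam p N ρ (z r) = ((c' * u * a ^ r : ℕ) : ZMod (p ^ (N + 1))) := by
    intro r
    unfold gam
    rw [hzr, ZMod.natCast_mod]
  have hcardA : A.card ≤ D.card ^ (v + j') := by
    refine le_trans ?_ (card_good g D (v + j'))
    refine card_le_card_of_injOn (fun r => p ^ v * c' * a ^ r % g ^ (v + j')) ?_ ?_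
    · intro r hr
      simp only [hA, coe_filter, mem_range, Set.mem_ofPred_eq] at hr ⊢
      exact ⟨Nat.mod_lt _ (by rw [hgj]; exact pow_pos hp.pos _), hr.2.mod⟩
    · intro r hr r' hr' h
      simp only [hA, coe_filter, mem_range, Set.mem_ofPred_eq] at hr hr'
      have h1 : p ^ v * (c' * a ^ r) ≡ p ^ v * (c' * a ^ r') [MOD p ^ v * p ^ (s + t)] := by
        rw [← pow_add, add_comm v, ← hgj, ← mul_assoc, ← mul_assoc]; exact h
      have h2 := Nat.ModEq.mul_left_cancel' (pow_ne_zero v hp.ne_zero) h1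
      refine eq_of_div_of_dvd (m := R) ?_ (cong_of_pow hp hs ha hu hc t r r' h2)
      rw [Nat.div_eq_of_lt hr.1, Nat.div_eq_of_lt hr'.1]
  have hcardC : C.card ≤ D.card ^ j' := by
    refine le_trans ?_ (card_good g D j')
    refine card_le_card_of_injOn (fun y => y.val) ?_ ?_
    · intro y hy
      simp only [hC, coe_filter, mem_range, mem_univ, true_and, Set.mem_ofPred_eq] at hy ⊢
      exact ⟨by rw [hgj']; exact ZMod.val_lt y, hy⟩
    · intro y _ y' _ h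
      exact ZMod.val_injective _ h
  have hzlt : ∀ r ∈ A, z r < p ^ N := by
    intro r _
    apply Nat.div_lt_of_lt_mul
    rw [← pow_succ']
    exact Nat.mod_lt _ (pow_pos hp.pos _)
  have hM : ∀ w, (A.filter (fun r => z r = w)).card ≤ g ^ v := by
    intro w
    refine card_le_of_cong (m := p ^ (N + 1 - s)) _ ?_ ?_
    · intro r hr
      simp only [hA, mem_filter, mem_range] at hr
      refine hr.1.1.trans_le ?_
      rw [hR, hg, ← pow_mul, ← pow_add]
      refine Nat.pow_le_pow_right hp.pos ?_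
      rw [mul_add] at ht'
      omega
    · intro r hr r' hr'
      have h1 : z r = z r' := (mem_filter.1 hr).2.trans (mem_filter.1 hr').2.symm
      refine cong_of_pow hp hs ha hu hcu _ r r' ?_
      rw [show s + (N + 1 - s) = N + 1 by omega]
      unfold Nat.ModEq
      rw [← hzr, ← hzr, h1]
  set K := (range (R * p ^ i)).filter
      (fun k => Good g D (v + j' + j') (p ^ v * c' * a ^ k)) with hK
  have hdec : ∀ k, ∃ w, p ^ v * c' * a ^ k = p ^ v * c' * a ^ (k % R)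
      + g ^ (v + j') * (c' * u * a ^ (k % R) * (k / R) + p ^ (N + 1) * w) := by
    intro k
    obtain ⟨w, hw⟩ := one_add_pow (p ^ (s + t) * u) (k / R)
    obtain ⟨m, hm⟩ : ∃ m, s + t = N + 1 + m := by
      refine Nat.exists_eq_add_of_le ?_
      rw [mul_add] at ht'
      omega
    refine ⟨c' * a ^ (k % R) * p ^ m * u ^ 2 * w, ?_⟩
    have e1 : a ^ k = a ^ (k % R) * (a ^ R) ^ (k / R) := by
      rw [← pow_mul, ← pow_add, Nat.mod_add_div]
    have e2 : p ^ (s + t) = p ^ (N + 1) * p ^ m := by rw [hm, pow_add]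
    rw [e1, hu1, hw, hgj, pow_add _ (s + t) v, mul_pow, sq (p ^ (s + t))]
    nth_rewrite 3 [e2]
    ring
  have hg0 : 0 < g ^ (v + j') := by rw [hgj]; exact pow_pos hp.pos _
  have hmaps : ∀ k ∈ K, k % R ∈ A := by
    intro k hk
    simp only [hK, hA, mem_filter, mem_range] at hk ⊢
    refine ⟨Nat.mod_lt _ hR0, ?_⟩
    obtain ⟨w, hw⟩ := hdec k
    have h1 := (hk.2.mono (Nat.le_add_right _ _)).mod
    rw [hw, Nat.add_mul_mod_self_left] at h1
    intro i hi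
    have e : g ^ (v + j') = g ^ i * g ^ (v + j' - i) := by rw [← pow_add]; congr 1; omega
    have h2 := h1 i hi
    rwa [e, Nat.mod_mul_right_div_self, Nat.mod_mod_of_dvd _ (dvd_pow_self g (by omega))] at h2
  have hfib : ∀ r ∈ A, (K.filter (fun k => k % R = r)).card
      ≤ apCount C (p ^ i) (β r) (gam p N ρ (z r)) := by
    intro r _
    refine card_le_card_of_injOn (fun k => k / R) ?_ ?_
    · intro k hk
      simp only [hK, coe_filter, mem_filter, mem_range, Set.mem_ofPred_eq] at hk ⊢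
      obtain ⟨⟨h1, h2⟩, h3⟩ := hk
      refine ⟨Nat.div_lt_of_lt_mul h1, ?_⟩
      obtain ⟨w, hw⟩ := hdec k
      have h4 := h2.div.mod
      rw [hw, Nat.add_mul_div_left _ _ hg0, h3, hgj', ← ZMod.val_natCast] at h4
      simp only [hC, mem_filter, mem_univ, true_and]
      convert h4 using 2
      rw [hgam, hβ]
      simp only [Nat.cast_add, Nat.cast_mul (c' * u * a ^ r), Nat.cast_mul (p ^ (N + 1)),
        ZMod.natCast_self, zero_mul, add_zero]
    · intro k hk k' hk' h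
      simp only [coe_filter, Set.mem_ofPred_eq] at hk hk'
      simp only at h
      rw [← Nat.div_add_mod k R, ← Nat.div_add_mod k' R, h, hk.2, hk'.2]
  have h1 : (K.card : ℝ) ≤ ∑ r ∈ A, (apCount C (p ^ i) (β r) (gam p N ρ (z r)) : ℝ) := by
    rw [card_eq_sum_card_fiberwise (f := fun k => k % R) (t := A) hmaps]
    exact_mod_cast sum_le_sum hfib
  refine h1.trans ((ap_bound hp hρ' N i (g ^ v) C A β z hzlt hM).trans ?_)
  have hA' : (A.card : ℝ) ≤ (D.card : ℝ) ^ (v + j') := by exact_mod_cast hcardA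
  have hC' : (C.card : ℝ) ≤ (D.card : ℝ) ^ j' := by exact_mod_cast hcardC
  have hq : ((p : ℝ) ^ e) ^ j' = (p : ℝ) ^ (N + 1) := by rw [← pow_mul, hN]
  rw [hq, hg]
  push_cast
  have : (p : ℝ) ^ N ≤ (p : ℝ) ^ (N + 1) := pow_le_pow_right₀ hp1 (by omega)
  gcongr

end Pool.Agent.MP_5a7e96_nt

end

-- part MP_5a7e96_nt.Main
section

/-!
# Power saving for the number of `k < X` with all digits of `c * a ^ k` in `D`
-/

set_option autoImplicit false

namespace Pool.Agent.MP_5a7e96_nt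

open Finset

/-- all base `g` digits of `x` lie in `D` -/
def AllIn (g : ℕ) (D : Finset ℕ) (x : ℕ) : Prop := ∀ y ∈ Nat.digits g x, y ∈ D

instance (g : ℕ) (D : Finset ℕ) (x : ℕ) : Decidable (AllIn g D x) :=
  List.decidableBAll (fun y => y ∈ D) (Nat.digits g x)

variable {p : ℕ}

theorem stepA (hp : p.Prime) {e : ℕ} (he : 0 < e) (D : Finset ℕ) (hd2 : 2 ≤ D.card)
    (hdg : D.card ≤ p ^ e) {a s u0 : ℕ} (hs : 2 ≤ s)
    (ha : a = 1 + p ^ s * u0) (hu : ¬ p ∣ u0) (v : ℕ) {c' : ℕ} (hc : ¬ p ∣ c') :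
    ∃ C : ℝ, 0 ≤ C ∧ ∀ J X : ℕ, v + s + 1 ≤ J →
      (X : ℝ) ≤ (((p : ℝ) ^ e) ^ 2 * √((p : ℝ) ^ e) / D.card) ^ J →
      (((range X).filter (fun k => AllIn (p ^ e) D (p ^ v * c' * a ^ k))).card : ℝ)
        ≤ C * (D.card * √((p : ℝ) ^ e)) ^ J := by
  have hp0 : (0 : ℝ) < p := by exact_mod_cast hp.pos
  have hp1 : (1 : ℝ) < p := by exact_mod_cast hp.one_lt
  set g : ℝ := (p : ℝ) ^ e with hg
  set d : ℝ := (D.card : ℝ) with hd
  have hg1 : 1 < g := one_lt_pow₀ hp1 he.ne'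
  have hgN : 1 < p ^ e := Nat.one_lt_pow he.ne' hp.one_lt
  have hd2' : (2 : ℝ) ≤ d := by rw [hd]; exact_mod_cast hd2
  have hdg' : d ≤ g := by rw [hd, hg]; exact_mod_cast hdg
  set σ := √g with hσ
  have hσ1 : 1 ≤ σ := Real.one_le_sqrt.2 hg1.le
  have hσ2 : σ ^ 2 = g := Real.sq_sqrt (by linarith)
  refine ⟨2 * g + 2 + 2 * (p : ℝ) ^ (v + s + 1) * g ^ v + √(2 * g ^ v), by positivity, ?_⟩
  intro J X hJ hX
  obtain ⟨j', rfl⟩ : ∃ j', J = v + j' := ⟨J - v, by omega⟩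
  set κ := d * σ with hκ
  have hκ2 : 2 ≤ κ := by nlinarith
  have hdκ : d ≤ κ := by nlinarith
  set t := e * (v + j') - v - s with ht
  have hej : j' ≤ e * j' := Nat.le_mul_of_pos_left _ he
  have hev : v ≤ e * v := Nat.le_mul_of_pos_left _ he
  have ht' : t + (v + s) = e * (v + j') := by rw [ht, mul_add]; omega
  have hR : (p : ℝ) ^ t * (p : ℝ) ^ (v + s) = g ^ (v + j') := by
    rw [← pow_add, ht', hg, ← pow_mul]
  obtain ⟨i, hi1, hi2⟩ : ∃ i : ℕ, X ≤ p ^ t * p ^ i ∧ (p : ℝ) ^ i ≤ 1 + p * (X / (p : ℝ) ^ t) := by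
    rcases le_or_gt ((X : ℝ) / (p : ℝ) ^ t) 1 with h | h
    · refine ⟨0, ?_, ?_⟩
      · rw [div_le_one (by positivity)] at h
        rw [pow_zero, mul_one]; exact_mod_cast h
      · rw [pow_zero]; exact le_add_of_nonneg_right (by positivity)
    · obtain ⟨n, h1, h2⟩ := exists_nat_pow_near h.le hp1
      refine ⟨n + 1, ?_, ?_⟩
      · rw [div_lt_iff₀ (by positivity), mul_comm] at h2
        exact_mod_cast h2.le
      · rw [pow_succ']; nlinarith
  have hc0 : 0 < c' := Nat.pos_of_ne_zero (by rintro rfl; simp at hc)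
  have hu0 : 0 < u0 := Nat.pos_of_ne_zero (by rintro rfl; simp at hu)
  have ha2 : 2 ≤ a := by
    have : 0 < p ^ s * u0 := Nat.mul_pos (pow_pos hp.pos _) hu0
    omega
  have hsub : (range X).filter (fun k => AllIn (p ^ e) D (p ^ v * c' * a ^ k))
      ⊆ range (p ^ e * (v + j' + j')) ∪ (range (p ^ t * p ^ i)).filter
        (fun k => Good (p ^ e) D (v + j' + j') (p ^ v * c' * a ^ k)) := by
    intro k hk
    simp only [mem_filter, mem_range, mem_union] at hk ⊢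
    rcases le_or_gt ((p ^ e) ^ (v + j' + j')) (p ^ v * c' * a ^ k) with h | h
    · exact Or.inr ⟨hk.1.trans_le hi1, good_of_digits hgN h hk.2⟩
    · left
      have h1 : 2 ^ k ≤ p ^ v * c' * a ^ k :=
        (Nat.pow_le_pow_left ha2 k).trans
          (Nat.le_mul_of_pos_left _ (Nat.mul_pos (pow_pos hp.pos _) hc0))
      have h2 : (p ^ e) ^ (v + j' + j') ≤ 2 ^ (p ^ e * (v + j' + j')) := by
        rw [pow_mul 2]
        exact Nat.pow_le_pow_left (Nat.lt_two_pow_self).le _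
      exact (Nat.pow_lt_pow_iff_right (by norm_num)).1 (h1.trans_lt (h.trans_le h2))
  have h1 := (Nat.cast_le (α := ℝ)).2 ((card_le_card hsub).trans (card_union_le _ _))
  rw [card_range, Nat.cast_add] at h1
  have h2 := core hp he D hs ha hu v hc j' (by omega) i
  rw [← ht, ← hg, ← hd] at h2
  have hκJ : 0 < κ ^ (v + j') := by positivity
  have b1 : ((p ^ e * (v + j' + j') : ℕ) : ℝ) ≤ 2 * g * κ ^ (v + j') := by
    have e1 : ((v + j' : ℕ) : ℝ) ≤ κ ^ (v + j') := by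
      have : ((v + j' : ℕ) : ℝ) ≤ (2 : ℝ) ^ (v + j') := by
        exact_mod_cast (Nat.lt_two_pow_self).le
      exact this.trans (pow_le_pow_left₀ (by norm_num) hκ2 _)
    push_cast at e1 ⊢
    rw [← hg]
    have : (0 : ℝ) ≤ v := Nat.cast_nonneg v
    nlinarith
  have b2 : √(2 * g ^ v * d ^ (v + j') * d ^ j' * g ^ j') ≤ √(2 * g ^ v) * κ ^ (v + j') := by
    rw [← Real.sqrt_sq hκJ.le, ← Real.sqrt_mul (by positivity)]
    apply Real.sqrt_le_sqrt
    have e1 : (κ ^ (v + j')) ^ 2 = d ^ (v + j') * d ^ (v + j') * g ^ (v + j') := by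
      rw [← pow_mul, mul_comm (v + j'), pow_mul, hκ, mul_pow, hσ2, mul_pow, sq d, mul_pow]
    have e2 : d ^ j' ≤ d ^ (v + j') := pow_le_pow_right₀ (by linarith) (by omega)
    have e3 : g ^ j' ≤ g ^ (v + j') := pow_le_pow_right₀ hg1.le (by omega)
    rw [e1]
    calc 2 * g ^ v * d ^ (v + j') * d ^ j' * g ^ j'
        ≤ 2 * g ^ v * d ^ (v + j') * d ^ (v + j') * g ^ (v + j') := by gcongr
      _ = _ := by ring
  have b3 : 2 * (p : ℝ) ^ i * d ^ (v + j') * d ^ j' / g ^ j'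
      ≤ (2 + 2 * (p : ℝ) ^ (v + s + 1) * g ^ v) * κ ^ (v + j') := by
    have hd0 : 0 < d := by linarith
    have hg0 : 0 < g := by linarith
    have e1 : d ^ j' / g ^ j' ≤ 1 := by
      rw [div_le_one (by positivity)]; exact pow_le_pow_left₀ hd0.le hdg' _
    have e2 : d ^ (v + j') ≤ κ ^ (v + j') := pow_le_pow_left₀ hd0.le hdκ _
    have e3 : (X : ℝ) / (p : ℝ) ^ t
        ≤ (p : ℝ) ^ (v + s) * (g ^ 2 * σ / d) ^ (v + j') / g ^ (v + j') := by
      rw [← hR, div_le_div_iff₀ (by positivity) (by positivity)]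
      calc (X : ℝ) * ((p : ℝ) ^ t * (p : ℝ) ^ (v + s))
          ≤ (g ^ 2 * σ / d) ^ (v + j') * ((p : ℝ) ^ t * (p : ℝ) ^ (v + s)) := by gcongr
        _ = _ := by ring
    have e4 : d ^ j' / g ^ j' ≤ g ^ v * (d ^ (v + j') / g ^ (v + j')) := by
      have : d ^ j' ≤ d ^ (v + j') := pow_le_pow_right₀ (by linarith) (by omega)
      calc d ^ j' / g ^ j' ≤ d ^ (v + j') / g ^ j' := by gcongr
        _ = _ := by rw [pow_add g]; field_simp
    have e5 : (g ^ 2 * σ / d) ^ (v + j') / g ^ (v + j') * d ^ (v + j')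
        * (d ^ (v + j') / g ^ (v + j')) = κ ^ (v + j') := by
      rw [← div_pow, ← mul_pow, ← div_pow, ← mul_pow]
      congr 1
      rw [hκ]; field_simp
    calc 2 * (p : ℝ) ^ i * d ^ (v + j') * d ^ j' / g ^ j'
        = 2 * (p : ℝ) ^ i * d ^ (v + j') * (d ^ j' / g ^ j') := by ring
      _ ≤ 2 * (1 + p * (X / (p : ℝ) ^ t)) * d ^ (v + j') * (d ^ j' / g ^ j') := by gcongr
      _ = 2 * d ^ (v + j') * (d ^ j' / g ^ j')
          + 2 * p * (X / (p : ℝ) ^ t) * d ^ (v + j') * (d ^ j' / g ^ j') := by ring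
      _ ≤ 2 * κ ^ (v + j') * 1
          + 2 * p * ((p : ℝ) ^ (v + s) * (g ^ 2 * σ / d) ^ (v + j') / g ^ (v + j')) * d ^ (v + j')
            * (g ^ v * (d ^ (v + j') / g ^ (v + j'))) := by gcongr
      _ = _ := by rw [← e5]; ring
  calc _ ≤ _ := h1
    _ ≤ 2 * g * κ ^ (v + j') + ((2 + 2 * (p : ℝ) ^ (v + s + 1) * g ^ v) * κ ^ (v + j')
        + √(2 * g ^ v) * κ ^ (v + j')) := add_le_add b1 (h2.trans (add_le_add b3 b2))
    _ = _ := by ring

theorem stepB (hp : p.Prime) {e : ℕ} (he : 0 < e) (D : Finset ℕ) (hd2 : 2 ≤ D.card)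
    (hdg : D.card ≤ p ^ e) {a s u0 : ℕ} (hs : 2 ≤ s)
    (ha : a = 1 + p ^ s * u0) (hu : ¬ p ∣ u0) {c : ℕ} (hc : 0 < c) :
    ∃ C : ℝ, ∀ X : ℕ,
      (((range X).filter (fun k => AllIn (p ^ e) D (c * a ^ k))).card : ℝ)
        ≤ C * (X : ℝ) ^ (Real.log ((D.card : ℝ) ^ 2 * (p : ℝ) ^ e)
          / Real.log (((p : ℝ) ^ e) ^ 5 / (D.card : ℝ) ^ 2)) := by
  obtain ⟨v, c', hc1, rfl⟩ := Nat.exists_eq_pow_mul_and_not_dvd hc.ne' p hp.ne_one
  obtain ⟨C, hC0, hC⟩ := stepA hp he D hd2 hdg hs ha hu v hc1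
  have hp1 : (1 : ℝ) < p := by exact_mod_cast hp.one_lt
  set g : ℝ := (p : ℝ) ^ e with hg
  set d : ℝ := (D.card : ℝ) with hd
  have hg1 : 1 < g := one_lt_pow₀ hp1 he.ne'
  have hd2' : (2 : ℝ) ≤ d := by rw [hd]; exact_mod_cast hd2
  have hdg' : d ≤ g := by rw [hd, hg]; exact_mod_cast hdg
  set σ := √g with hσ
  have hσ1 : 1 ≤ σ := Real.one_le_sqrt.2 hg1.le
  have hσ2 : σ ^ 2 = g := Real.sq_sqrt (by linarith)
  set κ := d * σ with hκ
  set l := g ^ 2 * σ / d with hl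
  have hκ2 : 2 ≤ κ := by nlinarith
  have hl1 : 1 < l := by
    rw [hl, lt_div_iff₀ (by linarith)]
    have : g < g ^ 2 := by nlinarith
    nlinarith
  have e1 : d ^ 2 * g = κ ^ 2 := by rw [hκ, mul_pow, hσ2]
  have e2 : g ^ 5 / d ^ 2 = l ^ 2 := by rw [hl, div_pow, mul_pow, hσ2]; ring
  have hlog : 0 < Real.log l := Real.log_pos hl1
  set θ := Real.log (d ^ 2 * g) / Real.log (g ^ 5 / d ^ 2) with hθ
  have hθ' : θ = Real.log κ / Real.log l := by
    rw [hθ, e1, e2, Real.log_pow, Real.log_pow]; field_simp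
  have hθ0 : 0 < θ := by rw [hθ']; exact div_pos (Real.log_pos (by linarith)) hlog
  have hκl : l ^ θ = κ := by
    rw [Real.rpow_def_of_pos (by linarith), hθ', mul_div_cancel₀ _ hlog.ne',
      Real.exp_log (by linarith)]
  refine ⟨C * κ ^ (v + s + 2), fun X => ?_⟩
  rcases Nat.eq_zero_or_pos X with rfl | hX
  · simp [Real.zero_rpow hθ0.ne']
  obtain ⟨n, h1, h2⟩ := exists_nat_pow_near (show (1 : ℝ) ≤ X by exact_mod_cast hX) hl1
  have h3 := hC (v + s + 2 + n) X (by omega)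
    (h2.le.trans (pow_le_pow_right₀ hl1.le (by omega)))
  have h4 : κ ^ n ≤ (X : ℝ) ^ θ := by
    rw [← hκl, ← Real.rpow_natCast, ← Real.rpow_mul (by linarith), mul_comm,
      Real.rpow_mul (by linarith), Real.rpow_natCast]
    exact Real.rpow_le_rpow (by positivity) h1 hθ0.le
  refine h3.trans ?_
  rw [pow_add, ← mul_assoc]
  gcongr

theorem general (hp : p.Prime) {e : ℕ} (he : 0 < e) (D : Finset ℕ) (hd2 : 2 ≤ D.card)
    (hdg : D.card ≤ p ^ e) {a : ℕ} (ha : 1 < a) (hpa : ¬ p ∣ a) {c : ℕ} (hc : 0 < c) :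
    ∃ C : ℝ, ∀ X : ℕ,
      (((range X).filter (fun k => AllIn (p ^ e) D (c * a ^ k))).card : ℝ)
        ≤ C * (X : ℝ) ^ (Real.log ((D.card : ℝ) ^ 2 * (p : ℝ) ^ e)
          / Real.log (((p : ℝ) ^ e) ^ 5 / (D.card : ℝ) ^ 2)) := by
  set T := Nat.totient (p ^ 2) with hT
  have hT0 : 0 < T := Nat.totient_pos.2 (pow_pos hp.pos _)
  have hcop : Nat.Coprime a (p ^ 2) :=
    Nat.Coprime.pow_right _ ((Nat.Prime.coprime_iff_not_dvd hp).2 hpa).symm
  have h1 : a ^ T ≡ 1 [MOD p ^ 2] := Nat.ModEq.pow_totient hcop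
  have h2 : 1 < a ^ T := Nat.one_lt_pow hT0.ne' ha
  have h3 : p ^ 2 ∣ a ^ T - 1 := (Nat.modEq_iff_dvd' h2.le).1 h1.symm
  obtain ⟨s, u0, hu, h4⟩ := Nat.exists_eq_pow_mul_and_not_dvd (show a ^ T - 1 ≠ 0 by omega) p hp.ne_one
  have hs : 2 ≤ s := by
    by_contra hlt
    rw [h4] at h3
    have h5 : p ^ s * p ∣ p ^ s * u0 := by
      rw [← pow_succ]; exact (pow_dvd_pow _ (by omega)).trans h3
    exact hu (Nat.dvd_of_mul_dvd_mul_left (pow_pos hp.pos _) h5)
  have h5 : a ^ T = 1 + p ^ s * u0 := by omega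
  have h6 := fun r : ℕ => stepB hp he D hd2 hdg hs h5 hu
    (c := c * a ^ r) (Nat.mul_pos hc (pow_pos (by omega) _))
  choose C hC using h6
  refine ⟨∑ r ∈ range T, C r, fun X => ?_⟩
  rw [sum_mul, card_eq_sum_card_fiberwise (f := fun k => k % T) (t := range T)
    (fun k _ => by simpa using Nat.mod_lt k hT0), Nat.cast_sum]
  refine sum_le_sum fun r _ => le_trans ?_ (hC r X)
  rw [Nat.cast_le]
  refine card_le_card_of_injOn (fun k => k / T) ?_ ?_
  · intro k hk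
    simp only [coe_filter, mem_filter, mem_range, Set.mem_ofPred_eq] at hk ⊢
    obtain ⟨⟨a1, a2⟩, a3⟩ := hk
    refine ⟨(Nat.div_le_self _ _).trans_lt a1, ?_⟩
    rwa [← a3, mul_assoc, ← pow_mul, ← pow_add, Nat.mod_add_div]
  · intro k hk k' hk' h
    simp only [coe_filter, Set.mem_ofPred_eq] at hk hk'
    simp only at h
    rw [← Nat.div_add_mod k T, ← Nat.div_add_mod k' T, h, hk.2, hk'.2]

theorem general' (hp : p.Prime) {e : ℕ} (he : 0 < e) (D : Finset ℕ) (hd2 : 2 ≤ D.card)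
    (hD : D ⊆ range (p ^ e)) {a : ℕ} (ha : 1 < a) (hpa : ¬ p ∣ a) {c : ℕ} (hc : 0 < c) :
    ∃ C : ℝ, ∀ X : ℕ,
      (({k | k < X ∧ ∀ y ∈ Nat.digits (p ^ e) (c * a ^ k), y ∈ D}.ncard : ℕ) : ℝ)
        ≤ C * (X : ℝ) ^ (Real.log ((D.card : ℝ) ^ 2 * (p : ℝ) ^ e)
          / Real.log (((p : ℝ) ^ e) ^ 5 / (D.card : ℝ) ^ 2)) := by
  obtain ⟨C, hC⟩ := general hp he D hd2 (by simpa using card_le_card hD) ha hpa hc
  refine ⟨C, fun X => le_trans (le_of_eq ?_) (hC X)⟩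
  rw [← Set.ncard_coe_finset]
  congr 2
  ext k
  simp [AllIn]

theorem expo : Real.log ((3 : ℝ) ^ 2 * 2 ^ 2) / Real.log (((2 : ℝ) ^ 2) ^ 5 / 3 ^ 2) ≤ 757 / 1000 := by
  rw [div_le_div_iff₀ (Real.log_pos (by norm_num)) (by norm_num)]
  have h1 : Real.log ((3 : ℝ) ^ 2 * 2 ^ 2) * 1000 = Real.log (((3 : ℝ) ^ 2 * 2 ^ 2) ^ 1000) := by
    rw [Real.log_pow ((3 : ℝ) ^ 2 * 2 ^ 2)]; push_cast; ring
  have h2 : 757 * Real.log (((2 : ℝ) ^ 2) ^ 5 / 3 ^ 2)
      = Real.log ((((2 : ℝ) ^ 2) ^ 5 / 3 ^ 2) ^ 757) := by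
    rw [Real.log_pow (((2 : ℝ) ^ 2) ^ 5 / 3 ^ 2)]; push_cast; ring
  rw [h1, h2]
  apply Real.log_le_log (by positivity)
  rw [div_pow, le_div_iff₀ (by positivity)]
  have : ((3 ^ 2 * 2 ^ 2) ^ 1000 * (3 ^ 2) ^ 757 : ℕ) ≤ ((2 ^ 2) ^ 5) ^ 757 := by decide +kernel
  exact_mod_cast this

theorem base_four_one {c : ℕ} (hc : 0 < c) : ∃ C : ℝ, ∀ X : ℕ,
    (({k | k < X ∧ 0 ∉ Nat.digits 4 (c * 3 ^ k)}.ncard : ℕ) : ℝ) ≤ C * (X : ℝ) ^ (757 / 1000 : ℝ) := by
  obtain ⟨C, hC⟩ := general' Nat.prime_two (e := 2) (by norm_num) {1, 2, 3} (by decide) (by decide)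
    (a := 3) (by norm_num) (by norm_num) hc
  refine ⟨|C|, fun X => ?_⟩
  rcases Nat.eq_zero_or_pos X with rfl | hX
  · simp
  have h1 := hC X
  have e : {k | k < X ∧ 0 ∉ Nat.digits 4 (c * 3 ^ k)}
      = {k | k < X ∧ ∀ y ∈ Nat.digits (2 ^ 2) (c * 3 ^ k), y ∈ ({1, 2, 3} : Finset ℕ)} := by
    ext k
    simp only [Set.mem_ofPred_eq, and_congr_right_iff, mem_insert, mem_singleton]
    intro _
    constructor
    · intro h y hy
      have h1 : y < 4 := Nat.digits_lt_base (by norm_num) hy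
      have h2 : y ≠ 0 := by rintro rfl; exact h hy
      omega
    · intro h h0
      have := h 0 h0
      omega
  rw [e]
  refine h1.trans ?_
  have e2 : ((({1, 2, 3} : Finset ℕ).card : ℕ) : ℝ) = 3 := by
    rw [show ({1, 2, 3} : Finset ℕ).card = 3 by decide]; norm_num
  rw [e2]
  push_cast
  refine (mul_le_mul_of_nonneg_right (le_abs_self C) (by positivity)).trans ?_
  exact mul_le_mul_of_nonneg_left
    (Real.rpow_le_rpow_of_exponent_le (by exact_mod_cast hX) expo) (abs_nonneg C)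

theorem base_four : ∃ C : ℝ, ∀ X : ℕ,
    (({k | k < X ∧ ¬ (0 ∈ Nat.digits 4 (3 ^ k) ∧ 0 ∈ Nat.digits 4 (2 * 3 ^ k))}.ncard : ℕ) : ℝ)
      ≤ C * (X : ℝ) ^ (757 / 1000 : ℝ) := by
  obtain ⟨C1, h1⟩ := base_four_one (c := 1) (by norm_num)
  obtain ⟨C2, h2⟩ := base_four_one (c := 2) (by norm_num)
  refine ⟨C1 + C2, fun X => ?_⟩
  have e : {k | k < X ∧ ¬ (0 ∈ Nat.digits 4 (3 ^ k) ∧ 0 ∈ Nat.digits 4 (2 * 3 ^ k))}
      = {k | k < X ∧ 0 ∉ Nat.digits 4 (1 * 3 ^ k)} ∪ {k | k < X ∧ 0 ∉ Nat.digits 4 (2 * 3 ^ k)} := by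
    ext k
    simp only [Set.mem_ofPred_eq, Set.mem_union, one_mul]
    tauto
  rw [e, add_mul]
  refine le_trans ?_ (add_le_add (h1 X) (h2 X))
  exact_mod_cast Set.ncard_union_le _ _

end Pool.Agent.MP_5a7e96_nt

end
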